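import Pool.Agent.H98.RP2.Defs

/-! Exactness of the chain, case A. -/

set_option autoImplicit false
set_option maxHeartbeats 4000000

namespace Pool.Agent.H98.RP2

open Par

lemma A_d1 {P : Par} (h : HA P) (V : ℤ) : 0 ≤ P.D1 P.thA V := by
  obtain ⟨N, M, D, g⟩ := P
  obtain ⟨hN, hM, g0, gD, gN, D1, D2⟩ := h
  simp only at *
  simp only [Par.D1, R, G, ZG, thA, iv, al, be, Q, st]
  repeat' (split <;> try (exfalso; omega))
  all_goals omega

lemma A_d0 {P : Par} (h : HA P) (V : ℤ) : 0 ≤ P.D0 P.thA V := by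
  obtain ⟨N, M, D, g⟩ := P
  obtain ⟨hN, hM, g0, gD, gN, D1, D2⟩ := h
  simp only at *
  simp only [Par.D0, R, G, ZG, thA, iv, al, be, Q, st]
  repeat' (split <;> try (exfalso; omega))
  all_goals omega

lemma A_n {P : Par} (h : HA P) (j : ℤ) :
    0 ≤ P.npA j ∧ P.npA j ≤ 2 * P.w j ∧ 0 ≤ P.nmA j ∧ P.nmA j ≤ 2 * P.w j := by
  obtain ⟨N, M, D, g⟩ := P
  obtain ⟨hN, hM, g0, gD, gN, D1, D2⟩ := h
  simp only at *
  simp only [npA, nmA, w, iv, al, be, st]
  refine ⟨?_, ?_, ?_, ?_⟩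
  all_goals
    repeat' (split <;> try (exfalso; omega))
  all_goals omega

lemma A_th (P : Par) (hN : P.N = 3 * P.M + 1) (V : ℤ) :
    P.thA V - P.thA (V - P.N) = -P.npA V - P.nmA V + P.npA (V - P.Q) + P.nmA (V + P.Q) := by
  obtain ⟨N, M, D, g⟩ := P
  simp only at hN
  subst hN
  simp only [thA, npA, nmA, iv, al, be, Q]
  ring_nf

theorem exA {P : Par} (h : HA P) : (chA P).Ex :=
  ⟨fun j => (A_n h j).1, fun j => (A_n h j).2.1, fun j => (A_n h j).2.2.1,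
    fun j => (A_n h j).2.2.2, A_d0 h, A_d1 h, A_th P h.hN⟩

end Pool.Agent.H98.RP2
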