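import Pool.Agent.H98.RP2.Flow

/-! Mirror symmetry `X → 4 M + 1 - X`, `j → M - j`, `V → M - V`, `b → -b`, `d → 1 - d`. -/

set_option autoImplicit false
set_option maxHeartbeats 4000000

namespace Pool.Agent.H98.RP2

open Par

lemma st_flip : st = fun x => 1 - st (-1 - x) := by
  funext x
  unfold st
  split_ifs <;> omega

lemma w_mirror (P : Par) (hN : P.N = 3 * P.M + 1) (j : ℤ) : P.w (P.M - j) = P.w j := by
  obtain ⟨N, M, D, g⟩ := P
  simp only at hN
  subst hN
  conv_lhs =>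
    simp only [Par.w, iv]
    rw [st_flip]
  simp only [Par.w, iv]
  ring_nf

lemma npA_mirror (P : Par) (hN : P.N = 3 * P.M + 1) (j : ℤ) : P.npA (P.M - j) = P.nmA j := by
  obtain ⟨N, M, D, g⟩ := P
  simp only at hN
  subst hN
  conv_lhs =>
    simp only [Par.npA, iv, al, be]
    rw [st_flip]
  simp only [Par.nmA, iv, al, be]
  ring_nf

lemma npB_mirror (P : Par) (hN : P.N = 3 * P.M + 1) (j : ℤ) : P.npB (P.M - j) = P.nmB j := by
  obtain ⟨N, M, D, g⟩ := P
  simp only at hN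
  subst hN
  conv_lhs =>
    simp only [Par.npB, iv, ua, ub]
    rw [st_flip]
  simp only [Par.nmB, iv, ua, ub]
  ring_nf

lemma DA_mirror (P : Par) (hN : P.N = 3 * P.M + 1) (V : ℤ) :
    P.D1 P.thA (P.M - V) = P.D0 P.thA V := by
  obtain ⟨N, M, D, g⟩ := P
  simp only at hN
  subst hN
  conv_lhs =>
    simp only [Par.D1, R, G, ZG, thA, iv, al, be, Q]
    rw [st_flip]
  simp only [Par.D0, R, G, ZG, thA, iv, al, be, Q]
  ring_nf

lemma DB_mirror (P : Par) (hN : P.N = 3 * P.M + 1) (V : ℤ) :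
    P.D1 P.thB (P.M - V) = P.D0 P.thB V := by
  obtain ⟨N, M, D, g⟩ := P
  simp only at hN
  subst hN
  conv_lhs =>
    simp only [Par.D1, R, G, ZG, thB, iv, ua, ub, Q]
    rw [st_flip]
  simp only [Par.D0, R, G, ZG, thB, iv, ua, ub, Q]
  ring_nf

end Pool.Agent.H98.RP2
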