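import Pool.Agent.H98.RP2.ExA
import Pool.Agent.H98.RP2.ExB
import Pool.Agent.H98.RP2.Mirror

/-! The two families of flows and the parameter ranges. -/

set_option autoImplicit false

namespace Pool.Agent.H98.RP2

open Finset H54RP

lemma HA.wok {P : Par} (h : HA P) : Chn.Wok P := by
  obtain ⟨hN, hM, g0, gD, gN, D1, D2⟩ := h
  exact ⟨g0, by omega, hN⟩

lemma HB.wok {P : Par} (h : HB P) : Chn.Wok P := by
  obtain ⟨hN, hM, g1, g2, D1, D2⟩ := h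
  exact ⟨by omega, by omega, hN⟩

open Classical in
/-- family of flows, case A -/
noncomputable def FA (N M D : ℤ) (σ : Bool) (g : ℤ) : Flow (cL (2 * N + D) N) where
  W := fun X v => if HA ⟨N, M, D, g⟩ then (chA ⟨N, M, D, g⟩).W σ X v else 0
  nonneg := by
    intro X v
    split_ifs with h
    · exact Chn.W_nonneg (exA h) σ X v
    · exact le_rfl
  supp := Chn.sup ⟨N, M, D, g⟩
  off := by
    intro X hX v
    split_ifs with h
    · exact (Chn.flow _ (exA h) h.wok σ).off X hX v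
    · rfl
  stat := by
    intro Y
    by_cases h : HA ⟨N, M, D, g⟩
    · simp only [if_pos h]
      exact Chn.W_stat (exA h) σ Y
    · simp only [if_neg h]
      simp

open Classical in
/-- family of flows, case B -/
noncomputable def FB (N M D : ℤ) (σ : Bool) (g : ℤ) : Flow (cL (2 * N + D) N) where
  W := fun X v => if HB ⟨N, M, D, g⟩ then (chB ⟨N, M, D, g⟩).W σ X v else 0
  nonneg := by
    intro X v
    split_ifs with h
    · exact Chn.W_nonneg (exB h) σ X v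
    · exact le_rfl
  supp := Chn.sup ⟨N, M, D, g⟩
  off := by
    intro X hX v
    split_ifs with h
    · exact (Chn.flow _ (exB h) h.wok σ).off X hX v
    · rfl
  stat := by
    intro Y
    by_cases h : HB ⟨N, M, D, g⟩
    · simp only [if_pos h]
      exact Chn.W_stat (exB h) σ Y
    · simp only [if_neg h]
      simp

variable {N M D g : ℤ} {σ : Bool}

lemma FA_W (h : HA ⟨N, M, D, g⟩) (X : ℤ) (v : Lt) :
    (FA N M D σ g).W X v = (chA ⟨N, M, D, g⟩).W σ X v := if_pos h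

lemma FB_W (h : HB ⟨N, M, D, g⟩) (X : ℤ) (v : Lt) :
    (FB N M D σ g).W X v = (chB ⟨N, M, D, g⟩).W σ X v := if_pos h

lemma FA_w (h : HA ⟨N, M, D, g⟩) (X : ℤ) :
    (FA N M D σ g).w X = Par.w ⟨N, M, D, g⟩ (blk X) := by
  have := Chn.W_sum (exA h) σ X
  unfold Flow.w
  simp only [FA_W h]
  exact this

lemma FB_w (h : HB ⟨N, M, D, g⟩) (X : ℤ) :
    (FB N M D σ g).w X = Par.w ⟨N, M, D, g⟩ (blk X) := by
  have := Chn.W_sum (exB h) σ X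
  unfold Flow.w
  simp only [FB_W h]
  exact this

lemma FA_mem (X : ℤ) :
    X ∈ (FA N M D σ g).supp ↔ -2 * M + g ≤ blk X ∧ blk X < N - g := Chn.mem_sup

lemma FB_mem (X : ℤ) :
    X ∈ (FB N M D σ g).supp ↔ -2 * M + g ≤ blk X ∧ blk X < N - g := Chn.mem_sup

/-- parameters, case A: labels `[g0, g1]`, blocks `C_R = [c0, c1)` -/
structure PA (N M D g0 g1 c0 c1 : ℤ) : Prop where
  hN : N = 3 * M + 1
  hM : 100000 ≤ M
  hD1 : 8 * D ≤ N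
  hD2 : -3 * N ≤ 20 * D
  h0 : 0 ≤ g0
  h0D : -D ≤ 3 * g0
  h0u : g0 = 0 ∨ 3 * g0 ≤ -D + 2
  h1 : 1000 * (g1 - g0) ≤ N
  h1' : N < 1000 * (g1 - g0 + 1)
  hc0 : 0 ≤ D → c0 = M + 2 + 4 * g1 + D
  hc0' : D < 0 → c0 = M + 2 + 4 * g1
  hc1 : 0 ≤ D → c1 = N - 4 * g1 - 1 - D
  hc1' : D < 0 → c1 = N - 4 * g1 - 1

/-- parameters, case B: labels `[g0, g1]` and `ga`, blocks `C_R = [c0, c1)` -/
structure PB (N M D g0 g1 ga c0 c1 : ℤ) : Prop where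
  hN : N = 3 * M + 1
  hM : 100000 ≤ M
  hD1 : 20 * D ≤ -3 * N
  hD2 : -N ≤ 4 * D
  h0 : 104 * N ≤ 1000 * g0
  h0' : 1000 * g0 < 104 * N + 1000
  h1 : 1000 * (g1 - g0) ≤ N
  h1' : N < 1000 * (g1 - g0 + 1)
  ha : 15 * ga + 15 ≤ 2 * N
  ha' : 2 * N < 15 * ga + 30
  hc0 : c0 = N - 4 * ga - 1
  hc1 : 1000 * c1 ≤ 724 * N
  hc1' : 724 * N < 1000 * c1 + 1000

lemma PA.g01 {N M D g0 g1 c0 c1 : ℤ} (h : PA N M D g0 g1 c0 c1) : g0 ≤ g1 := by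
  obtain ⟨hN, hM, D1, D2, h0, gD, gu, g1, g1', a1, a2, a3, a4⟩ := h
  omega

lemma PB.g01 {N M D g0 g1 ga c0 c1 : ℤ} (h : PB N M D g0 g1 ga c0 c1) : g0 ≤ g1 := by
  obtain ⟨hN, hM, D1, D2, h0, h0', g1, g1', ga, ga', c0, c1, c1'⟩ := h
  omega

lemma PA.toA {N M D g0 g1 c0 c1 : ℤ} (h : PA N M D g0 g1 c0 c1) {g : ℤ} (hg : g0 ≤ g ∧ g ≤ g1) :
    HA ⟨N, M, D, g⟩ := by
  obtain ⟨hN, hM, D1, D2, h0, gD, gu, g1, g1', a1, a2, a3, a4⟩ := h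
  constructor <;> simp only <;> omega

lemma PB.toB {N M D g0 g1 ga c0 c1 : ℤ} (h : PB N M D g0 g1 ga c0 c1) {g : ℤ}
    (hg : g0 ≤ g ∧ g ≤ g1) : HB ⟨N, M, D, g⟩ := by
  obtain ⟨hN, hM, D1, D2, h0, h0', g1, g1', ga, ga', c0, c1, c1'⟩ := h
  constructor <;> simp only <;> omega

lemma PB.toBa {N M D g0 g1 ga c0 c1 : ℤ} (h : PB N M D g0 g1 ga c0 c1) : HB ⟨N, M, D, ga⟩ := by
  obtain ⟨hN, hM, D1, D2, h0, h0', g1, g1', ga, ga', c0, c1, c1'⟩ := h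
  constructor <;> simp only <;> omega

/-- weights of the blocks on `C_R` -/
lemma PA.w_cR {N M D g0 g1 c0 c1 : ℤ} (h : PA N M D g0 g1 c0 c1) {g : ℤ} (hg : g0 ≤ g ∧ g ≤ g1)
    {j : ℤ} (hj : c0 ≤ j ∧ j < c1) : Par.w ⟨N, M, D, g⟩ j = 1 := by
  obtain ⟨hN, hM, D1, D2, h0, gD, gu, g1, g1', a1, a2, a3, a4⟩ := h
  unfold Par.w iv st
  simp only
  split_ifs <;> omega

lemma PB.w_cR {N M D g0 g1 ga c0 c1 : ℤ} (h : PB N M D g0 g1 ga c0 c1) {g : ℤ}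
    (hg : (g0 ≤ g ∧ g ≤ g1) ∨ g = ga) {j : ℤ} (hj : c0 ≤ j ∧ j < c1) :
    Par.w ⟨N, M, D, g⟩ j = 1 := by
  obtain ⟨hN, hM, D1, D2, h0, h0', g1, g1', ga, ga', c0, c1, c1'⟩ := h
  unfold Par.w iv st
  simp only
  split_ifs <;> omega

end Pool.Agent.H98.RP2
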