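import Pool.Agent.H98.RP2.Mirror

/-! Availability of letters, case B. -/

set_option autoImplicit false
set_option maxHeartbeats 4000000

namespace Pool.Agent.H98.RP2

open Par

/-- letter `(1,1)` -/
lemma B_11 {P : Par} (h : HB P) (j : ℤ) (h1 : -2 * P.M + P.g ≤ j) (h2 : j < P.N - P.g)
    (hz : j < -4 * P.g - 1 - P.D ∨ (-P.g ≤ j ∧ j ≤ P.M + P.g) ∨
      (P.M + 1 + P.g ≤ j ∧ j < P.N - 4 * P.g - 1 - P.D)) :
    1 ≤ P.D1 P.thB (j + P.Q) := by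
  obtain ⟨N, M, D, g⟩ := P
  obtain ⟨hN, hM, g1, g2, D1, D2⟩ := h
  simp only at *
  simp only [Par.D1, R, G, ZG, thB, iv, ua, ub, Q, st]
  repeat' (split <;> try (exfalso; omega))
  all_goals omega

/-- letter `(1,0)` -/
lemma B_10 {P : Par} (h : HB P) (j : ℤ) (h1 : -2 * P.M + P.g ≤ j) (h2 : j < P.N - P.g)
    (hz : (-4 * P.g - 1 ≤ j ∧ j < -P.g) ∨ (-P.g ≤ j ∧ j ≤ P.M + P.g) ∨
      P.N - 4 * P.g - 1 ≤ j) :
    1 ≤ P.D0 P.thB (j + P.Q) := by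
  obtain ⟨N, M, D, g⟩ := P
  obtain ⟨hN, hM, g1, g2, D1, D2⟩ := h
  simp only at *
  simp only [Par.D0, R, G, ZG, thB, iv, ua, ub, Q, st]
  repeat' (split <;> try (exfalso; omega))
  all_goals omega

/-- letter `(0,0)` on `[-g, N-g)` except `[M+1+g, M+2+4g+D)` -/
lemma B_00 {P : Par} (h : HB P) (j : ℤ)
    (hz : (-P.g ≤ j ∧ j ≤ P.M + P.g) ∨ (P.N - 4 * P.g - 1 ≤ j ∧ j < P.N - P.g)) :
    1 ≤ P.D0 P.thB j := by
  obtain ⟨N, M, D, g⟩ := P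
  obtain ⟨hN, hM, g1, g2, D1, D2⟩ := h
  simp only at *
  simp only [Par.D0, R, G, ZG, thB, iv, ua, ub, Q, st]
  repeat' (split <;> try (exfalso; omega))
  all_goals omega

end Pool.Agent.H98.RP2
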