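import Pool.Agent.H98.RP2.BaseA
import Pool.Agent.H98.RP2.AvB

/-! The base case, case B. -/

set_option autoImplicit false
set_option maxHeartbeats 4000000

namespace Pool.Agent.H98.RP2

open Finset H54RP Pool.Agent.H6.RP2

lemma B_zone {P : Par} (h : HB P) {j : ℤ} (h1 : P.N - 4 * P.g - 1 ≤ j)
    (h2 : j < P.M + 4 * P.g + 2) : P.w j = 1 ∧ P.npB j ≤ 1 ∧ P.nmB j = 1 := by
  obtain ⟨N, M, D, g⟩ := P
  obtain ⟨hN, hM, g1, g2, D1, D2⟩ := h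
  simp only at *
  simp only [Par.npB, Par.nmB, Par.w, iv, Par.ua, Par.ub, st]
  refine ⟨?_, ?_, ?_⟩
  all_goals
    repeat' (split <;> try (exfalso; omega))
  all_goals omega

lemma B_np {P : Par} (h : HB P) {j : ℤ} (h1 : P.N - 4 * P.g - 1 ≤ j)
    (h2 : j < P.N - 4 * P.g - 1 - P.D) (h3 : j < P.M + 4 * P.g + 2) : 1 ≤ P.npB j := by
  obtain ⟨N, M, D, g⟩ := P
  obtain ⟨hN, hM, g1, g2, D1, D2⟩ := h
  simp only at *
  simp only [Par.npB, iv, Par.ua, Par.ub, st]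
  repeat' (split <;> try (exfalso; omega))
  all_goals omega

lemma B_arcP {N M D g g' : ℤ} (h : HB ⟨N, M, D, g⟩) (σ : Bool) {j d : ℤ} (hd : d = 0 ∨ d = 1)
    (h1 : 1 ≤ Par.w ⟨N, M, D, g⟩ j) (h2 : 1 ≤ (chB ⟨N, M, D, g⟩).Dd d (j + (2 * N + D))) :
    Arc (FB N M D σ g) (FB N M D σ g') 1 d j := by
  obtain ⟨v, hv1, hv2, hv⟩ := Chn.arcP (exB h) h.wok σ (j := j) hd h1 h2
  exact ⟨stt σ (-1) j, v, blk_stt σ (by norm_num) j, hv1, hv2, Or.inl (by rw [FB_W h]; exact hv)⟩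

lemma Arc.symm {c : Lt → ℤ} {F G : Flow c} {b d j : ℤ} (h : Arc F G b d j) : Arc G F b d j := by
  obtain ⟨X, v, h1, h2, h3, h4⟩ := h
  exact ⟨X, v, h1, h2, h3, h4.symm⟩

lemma B_arcM {N M D g g' : ℤ} (h : HB ⟨N, M, D, g⟩) (σ : Bool) {j d : ℤ} (hd : d = 0 ∨ d = 1)
    (h1 : 1 ≤ Par.w ⟨N, M, D, g⟩ j) (h2 : 1 ≤ (chB ⟨N, M, D, g⟩).Dd d (j - (2 * N + D))) :
    Arc (FB N M D σ g) (FB N M D σ g') (-1) d j := by
  obtain ⟨v, hv1, hv2, hv⟩ := Chn.arcM (exB h) h.wok σ (j := j) hd h1 h2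
  exact ⟨stt σ 2 j, v, blk_stt σ (by norm_num) j, hv1, hv2, Or.inl (by rw [FB_W h]; exact hv)⟩

/-- letter `(-1, 0)`, by the mirror symmetry -/
lemma B_n10 {P : Par} (h : HB P) (j : ℤ) (h1 : -2 * P.M + P.g ≤ P.M - j)
    (h2 : P.M - j < P.N - P.g)
    (hz : P.M - j < -4 * P.g - 1 - P.D ∨ (-P.g ≤ P.M - j ∧ P.M - j ≤ P.M + P.g) ∨
      (P.M + 1 + P.g ≤ P.M - j ∧ P.M - j < P.N - 4 * P.g - 1 - P.D)) :
    1 ≤ P.D0 P.thB (j - P.Q) := by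
  have := B_11 h (P.M - j) h1 h2 hz
  rwa [show P.M - j + P.Q = P.M - (j - P.Q) by ring, DB_mirror P h.hN] at this

/-- merges on `C_R`: labels `a` (all three) and `g` (event `+1` on the upper part) -/
lemma B_mrgR {N M D a g : ℤ} (ha : HB ⟨N, M, D, a⟩) (hg : HB ⟨N, M, D, g⟩) (σ : Bool) {j : ℤ}
    (h1 : N - 4 * a - 1 ≤ j) (h2 : j < M + 4 * a + 2)
    (hp : j < N - 4 * a - 1 - D ∨ (N - 4 * g - 1 ≤ j ∧ j < N - 4 * g - 1 - D ∧
      j < M + 4 * g + 2)) :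
    Mrg (FB N M D σ a) (FB N M D σ g) σ j := by
  obtain ⟨e1, e2, e3⟩ := B_zone ha (j := j) h1 h2
  have e0 := (exB ha).np0 j
  have hZ := Chn.mrgZ (exB ha) ha.wok σ (j := j)
    (show Par.npB ⟨N, M, D, a⟩ j + 1 ≤ 2 * Par.w ⟨N, M, D, a⟩ j by omega)
    (show Par.nmB ⟨N, M, D, a⟩ j + 1 ≤ 2 * Par.w ⟨N, M, D, a⟩ j by omega)
  have hM := Chn.mrgM (exB ha) ha.wok σ (j := j) (show 1 ≤ Par.w ⟨N, M, D, a⟩ j by omega)
    (show 1 ≤ Par.nmB ⟨N, M, D, a⟩ j by omega)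
  unfold Mrg
  simp only [FB_W ha, FB_W hg]
  refine ⟨?_, hZ, Or.inl hM⟩
  rcases hp with hp | ⟨p1, p2, p3⟩
  · exact Or.inl (Chn.mrgP (exB ha) ha.wok σ (j := j) (show 1 ≤ Par.w ⟨N, M, D, a⟩ j by omega)
      (B_np ha h1 hp h2))
  · obtain ⟨f1, f2, f3⟩ := B_zone hg (j := j) p1 p3
    exact Or.inr (Chn.mrgP (exB hg) hg.wok σ (j := j) (show 1 ≤ Par.w ⟨N, M, D, g⟩ j by omega)
      (B_np hg p1 p2 p3))

/-- merges on `C_L` -/
lemma B_mrgL {N M D a g : ℤ} (ha : HB ⟨N, M, D, a⟩) (hg : HB ⟨N, M, D, g⟩) (σ : Bool) {j : ℤ}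
    (h1 : N - 4 * a - 1 ≤ M - j) (h2 : M - j < M + 4 * a + 2)
    (hp : M - j < N - 4 * a - 1 - D ∨ (N - 4 * g - 1 ≤ M - j ∧ M - j < N - 4 * g - 1 - D ∧
      M - j < M + 4 * g + 2)) :
    Mrg (FB N M D σ a) (FB N M D σ g) σ j := by
  obtain ⟨e1, e2, e3⟩ := B_zone ha (j := M - j) h1 h2
  have m1 := w_mirror ⟨N, M, D, a⟩ ha.hN j
  have m2 := npB_mirror ⟨N, M, D, a⟩ ha.hN j
  have m3 := npB_mirror ⟨N, M, D, a⟩ ha.hN (M - j)
  simp only [show M - (M - j) = j by ring] at m1 m2 m3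
  have e0 := (exB ha).np0 j
  have hZ := Chn.mrgZ (exB ha) ha.wok σ (j := j)
    (show Par.npB ⟨N, M, D, a⟩ j + 1 ≤ 2 * Par.w ⟨N, M, D, a⟩ j by omega)
    (show Par.nmB ⟨N, M, D, a⟩ j + 1 ≤ 2 * Par.w ⟨N, M, D, a⟩ j by omega)
  have hP := Chn.mrgP (exB ha) ha.wok σ (j := j) (show 1 ≤ Par.w ⟨N, M, D, a⟩ j by omega)
    (show 1 ≤ Par.npB ⟨N, M, D, a⟩ j by omega)
  unfold Mrg
  simp only [FB_W ha, FB_W hg]
  refine ⟨Or.inl hP, hZ, ?_⟩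
  rcases hp with hp | ⟨p1, p2, p3⟩
  · have := B_np ha h1 hp h2
    exact Or.inl (Chn.mrgM (exB ha) ha.wok σ (j := j) (show 1 ≤ Par.w ⟨N, M, D, a⟩ j by omega)
      (show 1 ≤ Par.nmB ⟨N, M, D, a⟩ j by omega))
  · obtain ⟨f1, f2, f3⟩ := B_zone hg (j := M - j) p1 p3
    have n1 := w_mirror ⟨N, M, D, g⟩ hg.hN j
    have n2 := npB_mirror ⟨N, M, D, g⟩ hg.hN j
    simp only at n1 n2
    have := B_np hg p1 p2 p3
    exact Or.inr (Chn.mrgM (exB hg) hg.wok σ (j := j) (show 1 ≤ Par.w ⟨N, M, D, g⟩ j by omega)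
      (show 1 ≤ Par.nmB ⟨N, M, D, g⟩ j by omega))

theorem base_B {s : ℕ} {N M D g0 g1 ga c0 c1 : ℤ} (hs : 1 ≤ s) (hN : N = 4 ^ s)
    (h : PB N M D g0 g1 ga c0 c1) (σ : Bool) (f : ℤ → ℝ) (E : ℝ)
    (hE : (FB N M D σ g0).E1 f ≤ E) (hEa : (FB N M D σ ga).E1 f ≤ E) :
    vr f (4 * c0 - 1) (4 * c1 - 2) 1 ≤ (1920 * (s + 1)) * E := by
  have hg := h.toB ⟨le_refl g0, h.g01⟩
  have ha := h.toBa
  have hwg := hg.wok
  have hwa := ha.wok
  have hp := h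
  obtain ⟨hN3, hM, D1, D2, h0, h0', g1', g1'', ga', ga'', hc0, c1', c1''⟩ := hp
  have hDa : 4 * |D| ≤ N := by
    rcases abs_cases D with ⟨e, _⟩ | ⟨e, _⟩ <;> rw [e] <;> omega
  have hc : c0 < c1 := by omega
  have key := baseGen (s := s) (N := N) (D := D) (c0 := c0) (c1 := c1) σ hs hN hDa
    (by omega) hc (F := FB N M D σ ga) (G := FB N M D σ g0)
    (fun j h1 h2 => by constructor <;> omega)
    (fun j h1 h2 => B_mrgR ha hg σ (by omega) (by omega) (by omega))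
    (fun j h1 h2 => B_arcP ha σ (Or.inl rfl) (Chn.w_pos hwa (by simp only; omega))
      (B_10 ha j (by simp only; omega) (by simp only; omega) (by simp only; omega)))
    (fun hD0 j0 hj0 => ⟨
      (B_arcM hg σ (Or.inl rfl) (Chn.w_pos hwg (by simp only; omega))
        (B_n10 hg j0 (by simp only; omega) (by simp only; omega) (by simp only; omega))).symm,
      (B_arcM hg σ (Or.inl rfl) (Chn.w_pos hwg (by simp only; omega))
        (B_n10 hg (j0 + 1) (by simp only; omega) (by simp only; omega) (by simp only; omega))).symm,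
      by omega, by omega,
      B_mrgL ha hg σ (by omega) (by omega) (by omega), B_mrgL ha hg σ (by omega) (by omega) (by omega),
      (B_arcP hg σ (Or.inr rfl) (Chn.w_pos hwg (by simp only; omega))
        (B_11 hg _ (by simp only; omega) (by simp only; omega) (by simp only; omega))).symm,
      (B_arcP hg σ (Or.inr rfl) (Chn.w_pos hwg (by simp only; omega))
        (B_11 hg _ (by simp only; omega) (by simp only; omega) (by simp only; omega))).symm⟩)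
    (fun hD0 j0 hj0 => by omega) f E hEa hE
  have e : Icc (4 * c0 - 1) (4 * c1 - 2 - ((1 : ℕ) : ℤ)) = Ico (4 * c0 - 1) (4 * c1 - 2) := by
    ext x; simp only [mem_Icc, mem_Ico]; omega
  unfold vr
  rw [e]
  push_cast
  refine key.trans (le_of_eq ?_)
  ring

end Pool.Agent.H98.RP2
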