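import Pool.Agent.H98.RP2.BaseGen
import Pool.Agent.H98.RP2.AvA
import Pool.Agent.H54.RP.Double

/-! The base case, case A. -/

set_option autoImplicit false
set_option maxHeartbeats 4000000

namespace Pool.Agent.H98.RP2

open Finset H54RP Pool.Agent.H6.RP2

namespace Chn

variable {C : Chn}

lemma mrgP (h : C.Ex) (hw : Wok C.P) (σ : Bool) {j : ℤ} (h1 : 1 ≤ C.P.w j) (h2 : 1 ≤ C.np j) :
    ∃ v, 1 / 16 ≤ C.W σ (stt σ (-1) j) v ∧ 1 / 16 ≤ C.W σ (stt σ 0 j) v :=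
  common h hw σ (b := 1) (by simp) (by rw [blk_stt σ (by norm_num), blk_stt σ (by norm_num)])
    (by rw [mass_m1]; omega) (by rw [mass_10]; exact h2)

lemma mrgZ (h : C.Ex) (hw : Wok C.P) (σ : Bool) {j : ℤ} (h1 : C.np j + 1 ≤ 2 * C.P.w j)
    (h2 : C.nm j + 1 ≤ 2 * C.P.w j) :
    ∃ v, 1 / 16 ≤ C.W σ (stt σ 0 j) v ∧ 1 / 16 ≤ C.W σ (stt σ 1 j) v :=
  common h hw σ (b := 0) (by simp) (by rw [blk_stt σ (by norm_num), blk_stt σ (by norm_num)])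
    (by rw [mass_00]; omega) (by rw [mass_01]; omega)

lemma mrgM (h : C.Ex) (hw : Wok C.P) (σ : Bool) {j : ℤ} (h1 : 1 ≤ C.P.w j) (h2 : 1 ≤ C.nm j) :
    ∃ v, 1 / 16 ≤ C.W σ (stt σ 1 j) v ∧ 1 / 16 ≤ C.W σ (stt σ 2 j) v :=
  common h hw σ (b := -1) (by simp) (by rw [blk_stt σ (by norm_num), blk_stt σ (by norm_num)])
    (by rw [mass_n1]; omega) (by rw [mass_n2]; omega)

/-- arc `(1, d)` from the block `j` -/
lemma arcP (h : C.Ex) (hw : Wok C.P) (σ : Bool) {j d : ℤ} (hd : d = 0 ∨ d = 1)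
    (h1 : 1 ≤ C.P.w j) (h2 : 1 ≤ C.Dd d (j + C.P.Q)) :
    ∃ v : Lt, bb v = 1 ∧ dd v = d ∧ 1 / 16 ≤ C.W σ (stt σ (-1) j) v := by
  obtain ⟨v, hv1, hv2⟩ := exists_lt (b := 1) (by simp) hd
  refine ⟨v, hv1, hv2, W_ge h hw σ _ v ?_ ?_⟩
  · rw [hv1, mass_m1]; omega
  · rw [hv1, hv2, blk_stt σ (by norm_num), mul_one]; exact h2

/-- arc `(-1, d)` from the block `j` -/
lemma arcM (h : C.Ex) (hw : Wok C.P) (σ : Bool) {j d : ℤ} (hd : d = 0 ∨ d = 1)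
    (h1 : 1 ≤ C.P.w j) (h2 : 1 ≤ C.Dd d (j - C.P.Q)) :
    ∃ v : Lt, bb v = -1 ∧ dd v = d ∧ 1 / 16 ≤ C.W σ (stt σ 2 j) v := by
  obtain ⟨v, hv1, hv2⟩ := exists_lt (b := -1) (by simp) hd
  refine ⟨v, hv1, hv2, W_ge h hw σ _ v ?_ ?_⟩
  · rw [hv1, mass_n2]; omega
  · rw [hv1, hv2, blk_stt σ (by norm_num), mul_neg_one]; exact h2

end Chn

lemma A_zone {P : Par} (h : HA P) {j : ℤ} (h1 : P.M + 2 + 4 * P.g ≤ j)
    (h2 : P.M + 2 + 4 * P.g + P.D ≤ j) (h3 : j < P.N - 4 * P.g - 1)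
    (h4 : j < P.N - 4 * P.g - 1 - P.D) : P.w j = 1 ∧ P.npA j = 1 ∧ P.nmA j = 1 := by
  obtain ⟨N, M, D, g⟩ := P
  obtain ⟨hN, hM, g0, gD, gN, D1, D2⟩ := h
  simp only at *
  simp only [Par.npA, Par.nmA, Par.w, iv, Par.al, Par.be, st]
  refine ⟨?_, ?_, ?_⟩
  all_goals
    repeat' (split <;> try (exfalso; omega))
  all_goals omega

/-- the facts at a block of `C_R` or `C_L` -/
lemma A_zone2 {P : Par} (h : HA P) {j : ℤ} (hj : (P.M + 2 + 4 * P.g ≤ j ∧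
      P.M + 2 + 4 * P.g + P.D ≤ j ∧ j < P.N - 4 * P.g - 1 ∧ j < P.N - 4 * P.g - 1 - P.D) ∨
      (P.M + 2 + 4 * P.g ≤ P.M - j ∧ P.M + 2 + 4 * P.g + P.D ≤ P.M - j ∧
      P.M - j < P.N - 4 * P.g - 1 ∧ P.M - j < P.N - 4 * P.g - 1 - P.D)) :
    P.w j = 1 ∧ P.npA j = 1 ∧ P.nmA j = 1 := by
  rcases hj with ⟨a, b, c, d⟩ | ⟨a, b, c, d⟩
  · exact A_zone h a b c d
  · obtain ⟨e1, e2, e3⟩ := A_zone h a b c d
    have m1 := w_mirror P h.hN j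
    have m2 := npA_mirror P h.hN j
    have m3 := npA_mirror P h.hN (P.M - j)
    rw [show P.M - (P.M - j) = j by ring] at m3
    exact ⟨by rw [← m1]; exact e1, by rw [m3]; exact e3, by rw [← m2]; exact e2⟩

lemma A_mrg {N M D g : ℤ} (h : HA ⟨N, M, D, g⟩) (σ : Bool) {j : ℤ} (hj : (M + 2 + 4 * g ≤ j ∧
      M + 2 + 4 * g + D ≤ j ∧ j < N - 4 * g - 1 ∧ j < N - 4 * g - 1 - D) ∨
      (M + 2 + 4 * g ≤ M - j ∧ M + 2 + 4 * g + D ≤ M - j ∧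
      M - j < N - 4 * g - 1 ∧ M - j < N - 4 * g - 1 - D)) :
    Mrg (FA N M D σ g) (FA N M D σ g) σ j := by
  obtain ⟨e1, e2, e3⟩ := A_zone2 h (j := j) hj
  have hw := h.wok
  have hP := Chn.mrgP (exA h) hw σ (j := j) (show 1 ≤ Par.w ⟨N, M, D, g⟩ j by omega)
    (show 1 ≤ Par.npA ⟨N, M, D, g⟩ j by omega)
  have hZ := Chn.mrgZ (exA h) hw σ (j := j)
    (show Par.npA ⟨N, M, D, g⟩ j + 1 ≤ 2 * Par.w ⟨N, M, D, g⟩ j by omega)
    (show Par.nmA ⟨N, M, D, g⟩ j + 1 ≤ 2 * Par.w ⟨N, M, D, g⟩ j by omega)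
  have hM := Chn.mrgM (exA h) hw σ (j := j) (show 1 ≤ Par.w ⟨N, M, D, g⟩ j by omega)
    (show 1 ≤ Par.nmA ⟨N, M, D, g⟩ j by omega)
  unfold Mrg
  simp only [FA_W h]
  exact ⟨Or.inl hP, hZ, Or.inl hM⟩

lemma A_arcP {N M D g : ℤ} (h : HA ⟨N, M, D, g⟩) (σ : Bool) {j d : ℤ} (hd : d = 0 ∨ d = 1)
    (h1 : 1 ≤ Par.w ⟨N, M, D, g⟩ j) (h2 : 1 ≤ (chA ⟨N, M, D, g⟩).Dd d (j + (2 * N + D))) :
    Arc (FA N M D σ g) (FA N M D σ g) 1 d j := by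
  obtain ⟨v, hv1, hv2, hv⟩ := Chn.arcP (exA h) h.wok σ (j := j) hd h1 h2
  exact ⟨stt σ (-1) j, v, blk_stt σ (by norm_num) j, hv1, hv2, Or.inl (by rw [FA_W h]; exact hv)⟩

lemma A_arcM {N M D g : ℤ} (h : HA ⟨N, M, D, g⟩) (σ : Bool) {j d : ℤ} (hd : d = 0 ∨ d = 1)
    (h1 : 1 ≤ Par.w ⟨N, M, D, g⟩ j) (h2 : 1 ≤ (chA ⟨N, M, D, g⟩).Dd d (j - (2 * N + D))) :
    Arc (FA N M D σ g) (FA N M D σ g) (-1) d j := by
  obtain ⟨v, hv1, hv2, hv⟩ := Chn.arcM (exA h) h.wok σ (j := j) hd h1 h2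
  exact ⟨stt σ 2 j, v, blk_stt σ (by norm_num) j, hv1, hv2, Or.inl (by rw [FA_W h]; exact hv)⟩

/-- letter `(-1, 0)`, by the mirror symmetry -/
lemma A_n10 {P : Par} (h : HA P) (j : ℤ) (h1 : -2 * P.M + P.g ≤ P.M - j)
    (h2 : P.M - j < P.N - P.g)
    (hz : P.M - j < -4 * P.g - 1 - P.D ∨ (-P.g ≤ P.M - j ∧ P.M - j ≤ P.M + P.g) ∨
      (P.M + 1 + P.g ≤ P.M - j ∧ P.M - j < P.N - 4 * P.g - 1 - P.D)) :
    1 ≤ P.D0 P.thA (j - P.Q) := by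
  have := A_11 h (P.M - j) h1 h2 hz
  rwa [show P.M - j + P.Q = P.M - (j - P.Q) by ring, DA_mirror P h.hN] at this

theorem base_A {s : ℕ} {N M D g0 g1 c0 c1 : ℤ} (hs : 1 ≤ s) (hN : N = 4 ^ s)
    (h : PA N M D g0 g1 c0 c1) (σ : Bool) (f : ℤ → ℝ) (E : ℝ)
    (hE : (FA N M D σ g0).E1 f ≤ E) :
    vr f (4 * c0 - 1) (4 * c1 - 2) 1 ≤ (1920 * (s + 1)) * E := by
  have hg := h.toA ⟨le_refl g0, h.g01⟩
  have hw := hg.wok
  have hp := h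
  obtain ⟨hN3, hM, D1, D2, h0, gD, gu, g1', g1'', a1, a2, a3, a4⟩ := hp
  have hDa : 4 * |D| ≤ N := by
    rcases abs_cases D with ⟨e, _⟩ | ⟨e, _⟩ <;> rw [e] <;> omega
  have hc : c0 < c1 := by omega
  have key := baseGen (s := s) (N := N) (D := D) (c0 := c0) (c1 := c1) σ hs hN hDa
    (by omega) hc (F := FA N M D σ g0) (G := FA N M D σ g0)
    (fun j h1 h2 => by constructor <;> omega)
    (fun j h1 h2 => A_mrg hg σ (Or.inl (by omega)))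
    (fun j h1 h2 => A_arcP hg σ (Or.inl rfl) (Chn.w_pos hw (by simp only; omega))
      (A_10 hg j (by simp only; omega) (by simp only; omega) (by simp only; omega)))
    (fun hD0 j0 hj0 => ⟨
      A_arcM hg σ (Or.inl rfl) (Chn.w_pos hw (by simp only; omega))
        (A_n10 hg j0 (by simp only; omega) (by simp only; omega) (by simp only; omega)),
      A_arcM hg σ (Or.inl rfl) (Chn.w_pos hw (by simp only; omega))
        (A_n10 hg (j0 + 1) (by simp only; omega) (by simp only; omega) (by simp only; omega)),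
      by omega, by omega,
      A_mrg hg σ (Or.inr (by omega)), A_mrg hg σ (Or.inr (by omega)),
      A_arcP hg σ (Or.inr rfl) (Chn.w_pos hw (by simp only; omega))
        (A_11 hg _ (by simp only; omega) (by simp only; omega) (by simp only; omega)),
      A_arcP hg σ (Or.inr rfl) (Chn.w_pos hw (by simp only; omega))
        (A_11 hg _ (by simp only; omega) (by simp only; omega) (by simp only; omega))⟩)
    (fun hD0 j0 hj0 => ⟨
      A_arcP hg σ (Or.inr rfl) (Chn.w_pos hw (by simp only; omega))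
        (A_11 hg _ (by simp only; omega) (by simp only; omega) (by simp only; omega)),
      A_arcP hg σ (Or.inr rfl) (Chn.w_pos hw (by simp only; omega))
        (A_11 hg _ (by simp only; omega) (by simp only; omega) (by simp only; omega)),
      by omega, by omega⟩) f E hE hE
  have e : Icc (4 * c0 - 1) (4 * c1 - 2 - ((1 : ℕ) : ℤ)) = Ico (4 * c0 - 1) (4 * c1 - 2) := by
    ext x; simp only [mem_Icc, mem_Ico]; omega
  unfold vr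
  rw [e]
  push_cast
  refine key.trans (le_of_eq ?_)
  ring

end Pool.Agent.H98.RP2
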