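import Pool.Agent.H98.RP2.Legal
import Pool.Agent.H6.LvdP3.Union

/-! The window theorem from the core statements. -/

set_option autoImplicit false

namespace Pool.Agent.H98.RP2

open H54RP Pool.Agent.H98.LvdP Pool.Agent.H6.LvdP2 Pool.Agent.H6.RP2

/-- core statement, case A -/
def CoreA (C c s0 : ℕ) : Prop :=
  ∀ s : ℕ, s0 ≤ s → ∀ N M D g0 g1 c0 c1 : ℤ, N = 4 ^ s → PA N M D g0 g1 c0 c1 →
    ∀ (σ : Bool) (U : ℕ → Set ℤ), Monotone U →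
    (∀ n, ∀ X ∈ U n, ∀ g, g0 ≤ g ∧ g ≤ g1 → ∀ v, (FA N M D σ g).W X v ≠ 0 →
      T (cL (2 * N + D) N) v X ∈ U (n + 1)) →
    (∀ X ∈ U (C * (s + 1) ^ c), ¬ DigB (s + 1) X) →
    (∃ X ∈ U 0, -2 * M + g0 ≤ blk X ∧ blk X < N - g0) →
    ∀ X, (-2 * M + g0 ≤ blk X ∧ blk X < N - g0) → ¬ DigB (s + 1) X → X ∈ U (C * (s + 1) ^ c)

/-- core statement, case B -/
def CoreB (C c s0 : ℕ) : Prop :=
  ∀ s : ℕ, s0 ≤ s → ∀ N M D g0 g1 ga c0 c1 : ℤ, N = 4 ^ s → PB N M D g0 g1 ga c0 c1 →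
    ∀ (σ : Bool) (U : ℕ → Set ℤ), Monotone U →
    (∀ n, ∀ X ∈ U n, ∀ g, ((g0 ≤ g ∧ g ≤ g1) ∨ g = ga) → ∀ v, (FB N M D σ g).W X v ≠ 0 →
      T (cL (2 * N + D) N) v X ∈ U (n + 1)) →
    (∀ X ∈ U (C * (s + 1) ^ c), ¬ DigB (s + 1) X) →
    (∃ X ∈ U 0, -2 * M + g0 ≤ blk X ∧ blk X < N - g0) →
    ∀ X, (-2 * M + g0 ≤ blk X ∧ blk X < N - g0) → ¬ DigB (s + 1) X → X ∈ U (C * (s + 1) ^ c)

/-- parameter selection -/
lemma exists_par {N M D : ℤ} (hN : N = 3 * M + 1) (hM : 100000 ≤ M) (h1 : -N ≤ 4 * D)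
    (h2 : 8 * D ≤ N) :
    (∃ g0 g1 c0 c1, PA N M D g0 g1 c0 c1 ∧ 19 * g0 ≤ 2 * N ∧ 0 ≤ g0) ∨
    (∃ g0 g1 ga c0 c1, PB N M D g0 g1 ga c0 c1 ∧ 19 * g0 ≤ 2 * N ∧ 0 ≤ g0) := by
  by_cases hD : -3 * N ≤ 20 * D
  · left
    by_cases hD0 : 0 ≤ D
    · refine ⟨0, N / 1000, M + 2 + 4 * (N / 1000) + D, N - 4 * (N / 1000) - 1 - D, ?_, ?_, le_rfl⟩
      · constructor <;> omega
      · omega
    · refine ⟨(-D + 2) / 3, (-D + 2) / 3 + N / 1000, M + 2 + 4 * ((-D + 2) / 3 + N / 1000),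
        N - 4 * ((-D + 2) / 3 + N / 1000) - 1, ?_, ?_, ?_⟩
      · constructor <;> omega
      · omega
      · omega
  · right
    refine ⟨(104 * N + 999) / 1000, (104 * N + 999) / 1000 + N / 1000, (2 * N - 15) / 15,
      N - 4 * ((2 * N - 15) / 15) - 1, 724 * N / 1000, ?_, ?_, ?_⟩
    · constructor <;> omega
    · omega
    · omega

/-- numbers `k ≡ 1 mod 4` -/
theorem window_one {C c s0 : ℕ} (hA : CoreA C c s0) (hB : CoreB C c s0) {k q : ℤ}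
    (hk : k = 4 * q + 1) {s : ℕ} (hs : s0 ≤ s) (hs9 : 10 ≤ s)
    (h1 : 7 * 4 ^ (s + 1) ≤ 4 * |k|) (h2 : 8 * |k| ≤ 17 * 4 ^ (s + 1)) :
    ∃ m, IsMultiplier k m ∧ m ≤ 4 ^ (C * (s + 1) ^ c + 2 * (s + 1) + 3) := by
  obtain ⟨N, hN⟩ : ∃ N : ℤ, N = 4 ^ s := ⟨_, rfl⟩
  have hNt : (4 : ℤ) ^ (s + 1) = 4 * N := by rw [hN]; ring
  have hNb : (1048576 : ℤ) ≤ N := by
    rw [hN]
    calc (1048576 : ℤ) = 4 ^ 10 := by norm_num
      _ ≤ 4 ^ s := pow_le_pow_right₀ (by norm_num) hs9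
  have hN3 : N = 3 * ((N - 1) / 3) + 1 := by
    have h3 : N % 3 = 1 := by
      rw [hN]
      have h4 : (4 : ℤ) ^ s ≡ 1 ^ s [ZMOD 3] := Int.ModEq.pow s (by decide)
      rw [one_pow] at h4
      exact h4
    omega
  obtain ⟨M, hM⟩ : ∃ M : ℤ, M = (N - 1) / 3 := ⟨_, rfl⟩
  rw [← hM] at hN3
  have hN4 : N % 4 = 0 := by
    obtain ⟨r, rfl⟩ : ∃ r, s = r + 1 := ⟨s - 1, by omega⟩
    rw [hN, pow_succ]
    omega
  have hN8 : N % 16 = 0 := by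
    obtain ⟨r, rfl⟩ : ∃ r, s = r + 2 := ⟨s - 2, by omega⟩
    rw [hN, pow_add]
    omega
  rw [hNt] at h1 h2
  have hko : Odd k := ⟨2 * q, by omega⟩
  obtain ⟨σ, D, hσ, hD1, hD2⟩ : ∃ (σ : Bool) (D : ℤ),
      ((σ = true ∧ 2 * N + D = q) ∨ (σ = false ∧ 2 * N + D = -q)) ∧ -N ≤ 4 * D ∧ 8 * D ≤ N := by
    by_cases hq : 0 ≤ q
    · have hk0 : |k| = k := abs_of_nonneg (by omega)
      rw [hk0] at h1 h2
      exact ⟨true, q - 2 * N, Or.inl ⟨rfl, by ring⟩, by omega, by omega⟩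
    · have hk0 : |k| = -k := abs_of_nonpos (by omega)
      rw [hk0] at h1 h2
      exact ⟨false, -q - 2 * N, Or.inr ⟨rfl, by ring⟩, by omega, by omega⟩
  have hstart : ∀ g0 : ℤ, 0 ≤ g0 → 19 * g0 ≤ 2 * N →
      ∃ X ∈ Un k (s + 1) 0, -2 * M + g0 ≤ blk X ∧ blk X < N - g0 := by
    intro g0 hg0 hg1
    refine ⟨q, ⟨0, le_rfl, ?_⟩, ?_⟩
    · show 4 * q = k - 1
      omega
    · unfold blk
      rcases hσ with ⟨_, h⟩ | ⟨_, h⟩ <;> omega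
  have e1 : 7 * N ≤ |k| := by omega
  have e2 : 2 * |k| ≤ 17 * N := by omega
  rcases exists_par hN3 (by omega) hD1 hD2 with ⟨g0, g1, c0, c1, hP, hg, hg0⟩ |
    ⟨g0, g1, ga, c0, c1, hP, hg, hg0⟩
  · refine finish hko hNt hN3 hg0 hg (by omega) e1 e2 ?_
    by_cases hDt : ∃ X, X ∈ Un k (s + 1) (C * (s + 1) ^ c) ∧ DigB (s + 1) X
    · exact Or.inl hDt
    · right
      refine hA s hs N M D g0 g1 c0 c1 hN hP σ (Un k (s + 1)) (Un_mono k _) ?_ ?_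
        (hstart g0 hg0 hg)
      · intro n X hX g _ v hv
        exact Un_step hX (FA_move hk hσ hNt hv)
      · intro X hX hD
        exact hDt ⟨X, hX, hD⟩
  · refine finish hko hNt hN3 hg0 hg (by omega) e1 e2 ?_
    by_cases hDt : ∃ X, X ∈ Un k (s + 1) (C * (s + 1) ^ c) ∧ DigB (s + 1) X
    · exact Or.inl hDt
    · right
      refine hB s hs N M D g0 g1 ga c0 c1 hN hP σ (Un k (s + 1)) (Un_mono k _) ?_ ?_
        (hstart g0 hg0 hg)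
      · intro n X hX g _ v hv
        exact Un_step hX (FB_move hk hσ hNt hv)
      · intro X hX hD
        exact hDt ⟨X, hX, hD⟩

/-- the window `[7/4, 17/8]` -/
theorem window {C c s0 : ℕ} (hc : 1 ≤ c) (hA : CoreA C c s0) (hB : CoreB C c s0) :
    Pool.Agent.H6.LvdP3.Win (C + 5) c (max s0 10 + 1) 7 4 17 8 := by
  intro k hk t ht h1 h2
  obtain ⟨s, rfl⟩ : ∃ s, t = s + 1 := ⟨t - 1, by omega⟩
  have hs : s0 ≤ s := by omega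
  have hs9 : 10 ≤ s := by omega
  have hfin : ∀ m : ℤ, m ≤ 4 ^ (C * (s + 1) ^ c + 2 * (s + 1) + 3) →
      m ≤ 4 ^ ((C + 5) * (s + 1) ^ c) := by
    intro m hm
    refine hm.trans (pow_le_pow_right₀ (by norm_num) ?_)
    have h3 : s + 1 ≤ (s + 1) ^ c := by
      calc s + 1 = (s + 1) ^ 1 := by ring
        _ ≤ (s + 1) ^ c := Nat.pow_le_pow_right (by omega) hc
    have h4 : (C + 5) * (s + 1) ^ c = C * (s + 1) ^ c + 5 * (s + 1) ^ c := by ring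
    omega
  obtain ⟨j, hj⟩ := hk
  rcases Int.emod_two_eq_zero_or_one j with h | h
  · obtain ⟨m, hm, hb⟩ := window_one hA hB (k := k) (q := j / 2) (by omega) hs hs9 h1 h2
    exact ⟨m, hm, hfin m hb⟩
  · have h1' : 7 * 4 ^ (s + 1) ≤ 4 * |-k| := by rw [abs_neg]; exact h1
    have h2' : 8 * |-k| ≤ 17 * 4 ^ (s + 1) := by rw [abs_neg]; exact h2
    obtain ⟨m, hm, hb⟩ := window_one hA hB (k := -k) (q := -((j + 1) / 2)) (by omega) hs hs9 h1' h2'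
    exact ⟨m, isMultiplier_neg hm, hfin m hb⟩

end Pool.Agent.H98.RP2
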