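import Pool.Agent.H98.RP2.Energy

/-! The base case from merges and arcs. -/

set_option autoImplicit false

namespace Pool.Agent.H98.RP2

open Finset H54RP Pool.Agent.H6.RP2

variable {c : Lt → ℤ}

/-- the states of the block `j` can be merged -/
def Mrg (F G : Flow c) (σ : Bool) (j : ℤ) : Prop :=
  ((∃ v, 1 / 16 ≤ F.W (stt σ (-1) j) v ∧ 1 / 16 ≤ F.W (stt σ 0 j) v) ∨
      (∃ v, 1 / 16 ≤ G.W (stt σ (-1) j) v ∧ 1 / 16 ≤ G.W (stt σ 0 j) v)) ∧
    (∃ v, 1 / 16 ≤ F.W (stt σ 0 j) v ∧ 1 / 16 ≤ F.W (stt σ 1 j) v) ∧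
    ((∃ v, 1 / 16 ≤ F.W (stt σ 1 j) v ∧ 1 / 16 ≤ F.W (stt σ 2 j) v) ∨
      (∃ v, 1 / 16 ≤ G.W (stt σ 1 j) v ∧ 1 / 16 ≤ G.W (stt σ 2 j) v))

/-- some state of the block `j` has the letter `(b, d)` -/
def Arc (F G : Flow c) (b d j : ℤ) : Prop :=
  ∃ (X : ℤ) (v : Lt), blk X = j ∧ bb v = b ∧ dd v = d ∧ (1 / 16 ≤ F.W X v ∨ 1 / 16 ≤ G.W X v)

lemma lE_le_bE (F : Flow c) (f : ℤ → ℝ) {X j : ℤ} (h : blk X = j) : lE F f X ≤ bE F f j := by
  have hX' : X = 4 * j - 1 ∨ X = 4 * j ∨ X = 4 * j + 1 ∨ X = 4 * j + 2 := by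
    unfold blk at h; omega
  unfold bE
  have := lE_nonneg F f (4 * j - 1)
  have := lE_nonneg F f (4 * j)
  have := lE_nonneg F f (4 * j + 1)
  have := lE_nonneg F f (4 * j + 2)
  rcases hX' with rfl | rfl | rfl | rfl <;> linarith

lemma Mrg.bv_le {F G : Flow c} {σ : Bool} {j : ℤ} (h : Mrg F G σ j) (f : ℤ → ℝ) :
    bv f j ≤ 32 * (bE F f j + bE G f j) := bv_le_two F G f σ j h.1 h.2.1 h.2.2

lemma Arc.bd {Q N : ℤ} {F G : Flow (cL Q N)} {b d j : ℤ} (h : Arc F G b d j) (f : ℤ → ℝ) :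
    |f (j + (Q * b + N * d)) - f (4 * j)| ≤ 16 * (bE F f j + bE G f j) + bv f j := by
  obtain ⟨X, v, hX, hb, hd, hW⟩ := h
  have hT : T (cL Q N) v X = j + (Q * b + N * d) := by
    unfold T cL
    rw [hX, hb, hd]
  have h4 : blk (4 * j) = j := by unfold blk; omega
  have h1 := bv_pair f hX h4
  have h2 : |f (j + (Q * b + N * d)) - f X| ≤ 16 * (bE F f j + bE G f j) := by
    have p1 := lE_le_bE F f hX
    have p2 := lE_le_bE G f hX
    have p3 := lE_nonneg F f X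
    have p4 := lE_nonneg G f X
    rcases hW with hW | hW
    · have := arc_le f hW
      rw [hT] at this
      linarith
    · have := arc_le f hW
      rw [hT] at this
      linarith
  have := abs_sub_le (f (j + (Q * b + N * d))) (f X) (f (4 * j))
  linarith

/-- the base case, assembled -/
theorem baseGen {s : ℕ} {N D c0 c1 : ℤ} (σ : Bool) (hs : 1 ≤ s) (hN : N = 4 ^ s) (hD : 4 * |D| ≤ N)
    (hlen : c1 - c0 ≤ N) (hne : c0 < c1) {F G : Flow (cL (2 * N + D) N)}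
    (clo : ∀ j, c0 ≤ j → j < c1 →
      c0 ≤ (j + (2 * N + D) + 1) / 4 ∧ (j + (2 * N + D) + 2) / 4 < c1)
    (mrg : ∀ j, c0 ≤ j → j < c1 → Mrg F G σ j)
    (a10 : ∀ j, c0 ≤ j → j < c1 → Arc F G 1 0 j)
    (h6 : D ≠ 0 → ∀ j0, 3 * j0 + 2 = 2 * N + D →
      Arc F G (-1) 0 j0 ∧ Arc F G (-1) 0 (j0 + 1) ∧
      N ≤ 30 * (j0 - c0) ∧ N < 30 * (c1 - j0 - 1) ∧
      Mrg F G σ ((j0 - (2 * N + D) + 1) / 4) ∧ Mrg F G σ ((j0 - (2 * N + D) + 1) / 4 + 1) ∧
      Arc F G 1 1 ((j0 - (2 * N + D) + 1) / 4) ∧ Arc F G 1 1 ((j0 - (2 * N + D) + 1) / 4 + 1))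
    (h7 : D = 0 → ∀ j0, 3 * j0 + 2 = 2 * N + D →
      Arc F G 1 1 j0 ∧ Arc F G 1 1 (j0 + 1) ∧ c0 ≤ j0 ∧ 4 * (j0 + 1) + N < 4 * c1)
    (f : ℤ → ℝ) (E : ℝ) (hF : F.E1 f ≤ E) (hG : G.E1 f ≤ E) :
    ∑ X ∈ Ico (4 * c0 - 1) (4 * c1 - 2), |f (X + 1) - f X| ≤ 20 * (s + 1) * (96 * E) := by
  have bF : ∀ j, bE F f j ≤ E := fun j => (bE_le f F j).trans hF
  have bG : ∀ j, bE G f j ≤ E := fun j => (bE_le f G j).trans hG
  have hbv : ∀ {j}, Mrg F G σ j → bv f j ≤ 64 * E := by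
    intro j hj
    have := hj.bv_le f
    have := bF j
    have := bG j
    linarith
  have hbv' : ∀ {j}, Mrg F G σ j → bv f j ≤ 96 * E := by
    intro j hj
    have h1 := hbv hj
    have h2 := bv_nonneg f j
    linarith
  have harc : ∀ {b d j}, Mrg F G σ j → Arc F G b d j →
      |f (j + ((2 * N + D) * b + N * d)) - f (4 * j)| ≤ 96 * E := by
    intro b d j hj ha
    have h1 := ha.bd f
    have h2 := hbv hj
    have := bF j
    have := bG j
    linarith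
  refine base (N := N) (Q := 2 * N + D) (D := D) hs hN rfl hD hlen hne ?_ ?_ clo ?_ ?_
  · calc ∑ j ∈ Ico c0 c1, bv f j ≤ ∑ j ∈ Ico c0 c1, 32 * (bE F f j + bE G f j) :=
        sum_le_sum fun j hj => (mrg j (mem_Ico.1 hj).1 (mem_Ico.1 hj).2).bv_le f
      _ = 32 * (∑ j ∈ Ico c0 c1, bE F f j + ∑ j ∈ Ico c0 c1, bE G f j) := by
        rw [← sum_add_distrib, mul_sum]
      _ ≤ 96 * E := by
        have h1 := sum_bE f F c0 c1
        have h2 := sum_bE f G c0 c1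
        have h3 := F.E1_nonneg f
        linarith
  · calc ∑ j ∈ Ico c0 c1, |f (j + (2 * N + D)) - f (4 * j)| ≤
        ∑ j ∈ Ico c0 c1, 48 * (bE F f j + bE G f j) := by
          refine sum_le_sum fun j hj => ?_
          have h1 := mrg j (mem_Ico.1 hj).1 (mem_Ico.1 hj).2
          have h2 := (a10 j (mem_Ico.1 hj).1 (mem_Ico.1 hj).2).bd f
          have h3 := h1.bv_le f
          rw [mul_one, mul_zero, add_zero] at h2
          linarith
      _ = 48 * (∑ j ∈ Ico c0 c1, bE F f j + ∑ j ∈ Ico c0 c1, bE G f j) := by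
        rw [← sum_add_distrib, mul_sum]
      _ ≤ 96 * E := by
        have h1 := sum_bE f F c0 c1
        have h2 := sum_bE f G c0 c1
        linarith
  · intro hD0 j0 hj0
    obtain ⟨a1, a2, n1, n2, m1, m2, a3, a4⟩ := h6 hD0 j0 hj0
    have hN1 : 1 ≤ N := by rw [hN]; exact one_le_pow₀ (by norm_num)
    have mj := mrg j0 (by omega) (by omega)
    have mj1 := mrg (j0 + 1) (by omega) (by omega)
    refine ⟨?_, ?_, n1, n2, hbv' m1, hbv' m2, ?_, ?_⟩
    · have := harc mj a1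
      rwa [show j0 + ((2 * N + D) * -1 + N * 0) = j0 - (2 * N + D) by ring] at this
    · have := harc mj1 a2
      rwa [show j0 + 1 + ((2 * N + D) * -1 + N * 0) = j0 + 1 - (2 * N + D) by ring] at this
    · have := harc m1 a3
      rwa [show (2 * N + D) * 1 + N * 1 = 2 * N + D + N by ring] at this
    · have := harc m2 a4
      rwa [show (2 * N + D) * 1 + N * 1 = 2 * N + D + N by ring] at this
  · intro hD0 j0 hj0
    obtain ⟨a1, a2, n1, n2⟩ := h7 hD0 j0 hj0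
    have hN1 : 1 ≤ N := by rw [hN]; exact one_le_pow₀ (by norm_num)
    have mj := mrg j0 (by omega) (by omega)
    have mj1 := mrg (j0 + 1) (by omega) (by omega)
    refine ⟨?_, ?_, n1, n2⟩
    · have := harc mj a1
      rwa [show (2 * N + D) * 1 + N * 1 = 2 * N + D + N by ring] at this
    · have := harc mj1 a2
      rwa [show (2 * N + D) * 1 + N * 1 = 2 * N + D + N by ring] at this

end Pool.Agent.H98.RP2
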