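import Pool.Agent.H54.RP.Flow

/-! Window `|k|/4^t` near `2`: definitions of the exact chain.

`N = 4^s`, `4^t = 4 N`, `N = 3 M + 1`, `Q = |q| = 2 N + D` with `k = 4 q + 1`.
States `X : ℤ`, block `j = blk X = ⌊(X+1)/4⌋`, moves `X → j + Q b + N d`. -/

set_option autoImplicit false

namespace Pool.Agent.H98.RP2

/-- step function -/
def st (x : ℤ) : ℤ := if 0 ≤ x then 1 else 0

/-- signed indicator of `[a, b)` -/
def iv (a b x : ℤ) : ℤ := st (x - a) - st (x - b)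

/-- parameters: `N = 3 M + 1`, `Q = 2 N + D`, label `g` -/
structure Par where
  N : ℤ
  M : ℤ
  D : ℤ
  g : ℤ

namespace Par

variable (P : Par)

def Q : ℤ := 2 * P.N + P.D

/-- weight of a block -/
def w (j : ℤ) : ℤ :=
  iv (-2 * P.M + P.g) (-2 * P.M + P.g + P.N) j + iv (-P.g) (-P.g + P.N) j

/-- case A: noise functions -/
def al : ℤ := P.M + 2 + 4 * P.g
def be : ℤ := P.N - 4 * P.g - 1 - P.D

def npA (j : ℤ) : ℤ := iv P.al P.be j + iv (P.al - P.N) (P.be - P.N) j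
def nmA (j : ℤ) : ℤ :=
  iv (P.al + P.D) (P.be + P.D) j + iv (P.al + P.D - P.N) (P.be + P.D - P.N) j

def thA (V : ℤ) : ℤ :=
  iv (P.al - 3 * P.N) (P.be - 3 * P.N) V + 2 * iv (P.al - 2 * P.N) (P.be - 2 * P.N) V
    + iv (P.al - P.N) (P.be - P.N) V - iv (P.al + P.D - P.N) (P.be + P.D - P.N) V
    - 2 * iv (P.al + P.D) (P.be + P.D) V - iv (P.al + P.D + P.N) (P.be + P.D + P.N) V

/-- case B (`D < 0`, `z = -D`) -/
def ua : ℤ := P.N - 4 * P.g - 1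
def ub : ℤ := P.M + 4 * P.g + 2

def npB (j : ℤ) : ℤ :=
  iv (P.ua - P.N) (P.ub - P.N) j + 2 * iv (P.ub - P.N) (P.ub - P.N - P.D) j
    + iv P.ua (P.ua - P.D) j
def nmB (j : ℤ) : ℤ :=
  2 * iv (P.ua + P.D) P.ua j + iv P.ua P.ub j + iv (P.ub - P.N + P.D) (P.ub - P.N) j

def thB (V : ℤ) : ℤ :=
  2 * iv (P.ua - 2 * P.N) (P.ua - 2 * P.N - P.D) V + iv (P.ua - P.N) (P.ua - P.N - P.D) V
    + iv (P.ua - P.D - 2 * P.N) (P.ub - 2 * P.N) V + iv (P.ub - 3 * P.N) (P.ub - 3 * P.N - P.D) V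
    + 2 * iv (P.ub - 2 * P.N) (P.ub - 2 * P.N - P.D) V
    - 2 * iv (P.ua + P.D) P.ua V - iv (P.ua + P.D + P.N) (P.ua + P.N) V
    - iv P.ua (P.ub + P.D) V - iv (P.ub + P.D - P.N) (P.ub - P.N) V
    - 2 * iv (P.ub + P.D) P.ub V

/-- `G(V) = st(V - m₋) + st(V - m₊)` -/
def G (V : ℤ) : ℤ := st (V - (-2 * P.M + P.g)) + st (V - (-P.g))

def ZG (V : ℤ) : ℤ :=
  (st (V + 1 - 4 * (-2 * P.M + P.g)) + st (V + 1 - 4 * (-P.g)))
    + (st (V + 1 - 4 * (-2 * P.M + P.g) - P.N) + st (V + 1 - 4 * (-P.g) - P.N))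
    + (st (V + 1 - 4 * (-2 * P.M + P.g) - 2 * P.N) + st (V + 1 - 4 * (-P.g) - 2 * P.N))
    + (st (V + 1 - 4 * (-2 * P.M + P.g) - 3 * P.N) + st (V + 1 - 4 * (-P.g) - 3 * P.N))

/-- `R`, given the function `th` -/
def R (th : ℤ → ℤ) (V : ℤ) : ℤ := 4 * P.G V + 2 * P.G (V - P.Q) + 2 * P.G (V + P.Q) + th V

/-- twice the mass leaving `V` with digit `d = 1`, `d = 0` -/
def D1 (th : ℤ → ℤ) (V : ℤ) : ℤ := P.R th V - 2 * P.ZG V
def D0 (th : ℤ → ℤ) (V : ℤ) : ℤ := 2 * P.ZG V - P.R th (V - P.N)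

/-- twice the mass arriving at `V` -/
def r (np nm : ℤ → ℤ) (V : ℤ) : ℤ :=
  4 * P.w V - np V - nm V + 2 * P.w (V - P.Q) + np (V - P.Q) + 2 * P.w (V + P.Q) + nm (V + P.Q)

/-- exactness of the chain for given `np, nm, th` -/
structure Exact (np nm th : ℤ → ℤ) : Prop where
  np0 : ∀ j, 0 ≤ np j
  np2 : ∀ j, np j ≤ 2 * P.w j
  nm0 : ∀ j, 0 ≤ nm j
  nm2 : ∀ j, nm j ≤ 2 * P.w j
  d0 : ∀ V, 0 ≤ P.D0 th V
  d1 : ∀ V, 0 ≤ P.D1 th V
  th : ∀ V, th V - th (V - P.N) = -np V - nm V + np (V - P.Q) + nm (V + P.Q)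

end Par

/-- a chain: parameters and the three step functions -/
structure Chn where
  P : Par
  np : ℤ → ℤ
  nm : ℤ → ℤ
  th : ℤ → ℤ

/-- case A -/
def chA (P : Par) : Chn := ⟨P, P.npA, P.nmA, P.thA⟩
/-- case B -/
def chB (P : Par) : Chn := ⟨P, P.npB, P.nmB, P.thB⟩

/-- letters: `b = v.1 - 1 ∈ {-1,0,1}`, `d = v.2 ∈ {0,1}` -/
abbrev Lt := Fin 3 × Fin 2

def bb (v : Lt) : ℤ := ((v.1 : ℕ) : ℤ) - 1
def dd (v : Lt) : ℤ := ((v.2 : ℕ) : ℤ)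

/-- the move `X → blk X + Q b + N d` -/
def cL (Q N : ℤ) (v : Lt) : ℤ := Q * bb v + N * dd v

/-- type of a state: `-1, 0, 1, 2`; `σ = true` iff `q > 0` -/
def ty (σ : Bool) (X : ℤ) : ℤ :=
  if σ then X - 4 * H54RP.blk X else 1 - (X - 4 * H54RP.blk X)

namespace Chn

variable (C : Chn)

/-- twice the mass of the event `b` at the state `X` -/
def mass (σ : Bool) (b X : ℤ) : ℤ :=
  if b = 1 then
    (if ty σ X = -1 then 2 * C.P.w (H54RP.blk X) else if ty σ X = 0 then C.np (H54RP.blk X) else 0)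
  else if b = 0 then
    (if ty σ X = 0 then 2 * C.P.w (H54RP.blk X) - C.np (H54RP.blk X)
      else if ty σ X = 1 then 2 * C.P.w (H54RP.blk X) - C.nm (H54RP.blk X) else 0)
  else
    (if ty σ X = 2 then 2 * C.P.w (H54RP.blk X) else if ty σ X = 1 then C.nm (H54RP.blk X) else 0)

/-- twice the mass leaving `V` with digit `d` -/
def Dd (d V : ℤ) : ℤ := if d = 1 then C.P.D1 C.th V else C.P.D0 C.th V

/-- the flow; the mass of a state of block `j` is `C.P.w j` -/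
noncomputable def W (σ : Bool) (X : ℤ) (v : Lt) : ℝ :=
  (C.mass σ (bb v) X : ℝ) * (C.Dd (dd v) (H54RP.blk X + C.P.Q * bb v) : ℝ) /
    (2 * (C.P.r C.np C.nm (H54RP.blk X + C.P.Q * bb v) : ℝ))

/-- the parameters are exact -/
def Ex : Prop := C.P.Exact C.np C.nm C.th

end Chn

/-- hypotheses, case A -/
structure HA (P : Par) : Prop where
  hN : P.N = 3 * P.M + 1
  hM : 1000 ≤ P.M
  g0 : 0 ≤ P.g
  gD : -P.D ≤ 3 * P.g
  gN : 19 * P.g ≤ P.N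
  D1 : 8 * P.D ≤ P.N
  D2 : -3 * P.N ≤ 20 * P.D

/-- hypotheses, case B -/
structure HB (P : Par) : Prop where
  hN : P.N = 3 * P.M + 1
  hM : 1000 ≤ P.M
  g1 : 104 * P.N ≤ 1000 * P.g
  g2 : 15 * P.g + 15 ≤ 2 * P.N
  D1 : 20 * P.D ≤ -3 * P.N
  D2 : -P.N ≤ 4 * P.D

end Pool.Agent.H98.RP2
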