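import Pool.Agent.H98.RP2.Fam
import Pool.Agent.H6.RP2.Base

/-! Local energies: merges inside a block and arcs. -/

set_option autoImplicit false

namespace Pool.Agent.H98.RP2

open Finset H54RP Pool.Agent.H6.RP2

section

variable {c : Lt → ℤ} (F : Flow c) (f : ℤ → ℝ)

/-- energy of the arcs leaving `X` -/
noncomputable def lE (X : ℤ) : ℝ := ∑ v, F.W X v * |f (T c v X) - f X|

lemma lE_nonneg (X : ℤ) : 0 ≤ lE F f X :=
  sum_nonneg fun v _ => mul_nonneg (F.nonneg X v) (abs_nonneg _)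

lemma lE_off {X : ℤ} (h : X ∉ F.supp) : lE F f X = 0 :=
  sum_eq_zero fun v _ => by rw [F.off X h v, zero_mul]

lemma sum_lE (S : Finset ℤ) : ∑ X ∈ S, lE F f X ≤ F.E1 f := by
  classical
  have e : F.E1 f = ∑ X ∈ F.supp, lE F f X := rfl
  rw [e, ← sum_filter_add_sum_filter_not S (fun X => X ∈ F.supp)]
  have h2 : ∑ X ∈ S with ¬ X ∈ F.supp, lE F f X = 0 :=
    sum_eq_zero fun X hX => lE_off F f (mem_filter.1 hX).2
  rw [h2, add_zero]
  exact sum_le_sum_of_subset_of_nonneg (fun X hX => (mem_filter.1 hX).2)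
    fun X _ _ => lE_nonneg F f X

lemma lE_le (X : ℤ) : lE F f X ≤ F.E1 f := by
  have := sum_lE F f {X}
  rwa [sum_singleton] at this

variable {F}

lemma arc_le {X : ℤ} {v : Lt} (h : 1 / 16 ≤ F.W X v) :
    |f (T c v X) - f X| ≤ 16 * lE F f X := by
  have h1 : F.W X v * |f (T c v X) - f X| ≤ lE F f X :=
    single_le_sum (f := fun v => F.W X v * |f (T c v X) - f X|)
      (fun v _ => mul_nonneg (F.nonneg X v) (abs_nonneg _)) (mem_univ v)
  have h2 := abs_nonneg (f (T c v X) - f X)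
  nlinarith

lemma merge_le {X Y : ℤ} {v : Lt} (hb : blk X = blk Y) (h1 : 1 / 16 ≤ F.W X v)
    (h2 : 1 / 16 ≤ F.W Y v) : |f X - f Y| ≤ 16 * (lE F f X + lE F f Y) := by
  have a1 := arc_le f h1
  have a2 := arc_le f h2
  have e : T c v X = T c v Y := by unfold T; rw [hb]
  rw [e] at a1
  have := abs_sub_le (f X) (f (T c v Y)) (f Y)
  rw [abs_sub_comm (f X) (f (T c v Y))] at this
  linarith

/-- energy of a block -/
noncomputable def bE (F : Flow c) (f : ℤ → ℝ) (j : ℤ) : ℝ :=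
  lE F f (4 * j - 1) + lE F f (4 * j) + lE F f (4 * j + 1) + lE F f (4 * j + 2)

lemma bE_nonneg (F : Flow c) (j : ℤ) : 0 ≤ bE F f j := by
  unfold bE
  have := lE_nonneg F f (4 * j - 1)
  have := lE_nonneg F f (4 * j)
  have := lE_nonneg F f (4 * j + 1)
  have := lE_nonneg F f (4 * j + 2)
  linarith

lemma sum_bE (F : Flow c) (a b : ℤ) : ∑ j ∈ Ico a b, bE F f j ≤ F.E1 f := by
  classical
  have key : ∀ r : ℤ, -1 ≤ r → r ≤ 2 → ∑ j ∈ Ico a b, lE F f (4 * j + r) =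
      ∑ X ∈ (Ico (4 * a - 1) (4 * b - 1)).filter (fun X => (X + 1) % 4 = r + 1), lE F f X := by
    intro r hr hr'
    refine sum_bij' (fun j _ => 4 * j + r) (fun X _ => (X - r) / 4) ?_ ?_ ?_ ?_ ?_
    · intro j hj
      simp only [mem_filter, mem_Ico] at hj ⊢
      omega
    · intro X hX
      simp only [mem_filter, mem_Ico] at hX ⊢
      omega
    · intro j hj
      omega
    · intro X hX
      simp only [mem_filter, mem_Ico] at hX
      show 4 * ((X - r) / 4) + r = X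
      omega
    · intro j hj
      rfl
  have e1 : ∑ j ∈ Ico a b, bE F f j =
      ∑ j ∈ Ico a b, lE F f (4 * j + (-1)) + ∑ j ∈ Ico a b, lE F f (4 * j + 0) +
      ∑ j ∈ Ico a b, lE F f (4 * j + 1) + ∑ j ∈ Ico a b, lE F f (4 * j + 2) := by
    rw [← sum_add_distrib, ← sum_add_distrib, ← sum_add_distrib]
    refine sum_congr rfl fun j _ => ?_
    unfold bE
    rw [show 4 * j + -1 = 4 * j - 1 by ring, add_zero]
  rw [e1, key (-1) (by norm_num) (by norm_num), key 0 (by norm_num) (by norm_num),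
    key 1 (by norm_num) (by norm_num), key 2 (by norm_num) (by norm_num)]
  refine le_trans (le_of_eq ?_) (sum_lE F f (Ico (4 * a - 1) (4 * b - 1)))
  have hsplit : ∀ X ∈ Ico (4 * a - 1) (4 * b - 1), lE F f X =
      (if (X + 1) % 4 = -1 + 1 then lE F f X else 0) + (if (X + 1) % 4 = 0 + 1 then lE F f X else 0)
      + (if (X + 1) % 4 = 1 + 1 then lE F f X else 0) +
      (if (X + 1) % 4 = 2 + 1 then lE F f X else 0) := by
    intro X _
    have h4 : (X + 1) % 4 = 0 ∨ (X + 1) % 4 = 1 ∨ (X + 1) % 4 = 2 ∨ (X + 1) % 4 = 3 := by omega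
    rcases h4 with h | h | h | h <;> rw [h] <;> norm_num
  rw [sum_congr rfl hsplit, sum_add_distrib, sum_add_distrib, sum_add_distrib,
    sum_filter, sum_filter, sum_filter, sum_filter]

lemma bE_le (F : Flow c) (j : ℤ) : bE F f j ≤ F.E1 f := by
  have := sum_bE f F j (j + 1)
  rwa [show Ico j (j + 1) = {j} by ext x; simp only [mem_Ico, mem_singleton]; omega,
    sum_singleton] at this

end

/-- any two states of a block -/
lemma bv_pair (f : ℤ → ℝ) {X Y j : ℤ} (hX : blk X = j) (hY : blk Y = j) :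
    |f X - f Y| ≤ bv f j := by
  have hX' : X = 4 * j - 1 ∨ X = 4 * j ∨ X = 4 * j + 1 ∨ X = 4 * j + 2 := by
    unfold blk at hX; omega
  have hY' : Y = 4 * j - 1 ∨ Y = 4 * j ∨ Y = 4 * j + 1 ∨ Y = 4 * j + 2 := by
    unfold blk at hY; omega
  unfold bv
  have a1 := abs_nonneg (f (4 * j) - f (4 * j - 1))
  have a2 := abs_nonneg (f (4 * j + 1) - f (4 * j))
  have a3 := abs_nonneg (f (4 * j + 2) - f (4 * j + 1))
  have b1 := abs_le.1 (le_refl |f (4 * j) - f (4 * j - 1)|)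
  have b2 := abs_le.1 (le_refl |f (4 * j + 1) - f (4 * j)|)
  have b3 := abs_le.1 (le_refl |f (4 * j + 2) - f (4 * j + 1)|)
  obtain ⟨b11, b12⟩ := b1
  obtain ⟨b21, b22⟩ := b2
  obtain ⟨b31, b32⟩ := b3
  rcases hX' with rfl | rfl | rfl | rfl <;> rcases hY' with rfl | rfl | rfl | rfl <;>
    rw [abs_le] <;> constructor <;> linarith

/-- the state of type `τ` of the block `j` -/
def stt (σ : Bool) (τ j : ℤ) : ℤ := if σ then 4 * j + τ else 4 * j + 1 - τ

lemma blk_stt (σ : Bool) {τ : ℤ} (h : -1 ≤ τ ∧ τ ≤ 2) (j : ℤ) : blk (stt σ τ j) = j := by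
  unfold stt blk
  cases σ
  · simp only [Bool.false_eq_true, if_false]; omega
  · simp only [if_true]; omega

lemma ty_stt (σ : Bool) {τ : ℤ} (h : -1 ≤ τ ∧ τ ≤ 2) (j : ℤ) : ty σ (stt σ τ j) = τ := by
  unfold ty
  rw [blk_stt σ h]
  unfold stt
  cases σ
  · simp only [Bool.false_eq_true, if_false]; ring
  · simp only [if_true]; ring

/-- letters -/
lemma exists_lt {b d : ℤ} (hb : b = -1 ∨ b = 0 ∨ b = 1) (hd : d = 0 ∨ d = 1) :
    ∃ v : Lt, bb v = b ∧ dd v = d := by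
  rcases hb with rfl | rfl | rfl <;> rcases hd with rfl | rfl
  · exact ⟨(0, 0), by simp [bb], by simp [dd]⟩
  · exact ⟨(0, 1), by simp [bb], by simp [dd]⟩
  · exact ⟨(1, 0), by simp [bb], by simp [dd]⟩
  · exact ⟨(1, 1), by simp [bb], by simp [dd]⟩
  · exact ⟨(2, 0), by simp [bb], by simp [dd]⟩
  · exact ⟨(2, 1), by simp [bb], by simp [dd]⟩

namespace Chn

variable {C : Chn}

/-- two states of the same block which both allow the event `b` have a common letter -/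
lemma common (h : C.Ex) (hw : Wok C.P) (σ : Bool) {b X Y : ℤ} (hb : b = -1 ∨ b = 0 ∨ b = 1)
    (hXY : blk X = blk Y) (hX : 1 ≤ C.mass σ b X) (hY : 1 ≤ C.mass σ b Y) :
    ∃ v, 1 / 16 ≤ C.W σ X v ∧ 1 / 16 ≤ C.W σ Y v := by
  have h1 := (mass_le_brk h σ b X).trans (brk_le_r h hb _)
  have h2 := Dd_sum h (blk X + C.P.Q * b)
  have h3 : 1 ≤ C.Dd 0 (blk X + C.P.Q * b) ∨ 1 ≤ C.Dd 1 (blk X + C.P.Q * b) := by omega
  obtain ⟨d, hd, h4⟩ : ∃ d : ℤ, (d = 0 ∨ d = 1) ∧ 1 ≤ C.Dd d (blk X + C.P.Q * b) := by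
    rcases h3 with h3 | h3
    · exact ⟨0, by simp, h3⟩
    · exact ⟨1, by simp, h3⟩
  obtain ⟨v, hv1, hv2⟩ := exists_lt hb hd
  refine ⟨v, W_ge h hw σ X v (by rw [hv1]; exact hX) (by rw [hv1, hv2]; exact h4),
    W_ge h hw σ Y v (by rw [hv1]; exact hY) (by rw [hv1, hv2, ← hXY]; exact h4)⟩

lemma mass_m1 (σ : Bool) (j : ℤ) : C.mass σ 1 (stt σ (-1) j) = 2 * C.P.w j := by
  unfold mass
  rw [ty_stt σ (by norm_num), blk_stt σ (by norm_num)]
  norm_num

lemma mass_10 (σ : Bool) (j : ℤ) : C.mass σ 1 (stt σ 0 j) = C.np j := by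
  unfold mass
  rw [ty_stt σ (by norm_num), blk_stt σ (by norm_num)]
  norm_num

lemma mass_00 (σ : Bool) (j : ℤ) : C.mass σ 0 (stt σ 0 j) = 2 * C.P.w j - C.np j := by
  unfold mass
  rw [ty_stt σ (by norm_num), blk_stt σ (by norm_num)]
  norm_num

lemma mass_01 (σ : Bool) (j : ℤ) : C.mass σ 0 (stt σ 1 j) = 2 * C.P.w j - C.nm j := by
  unfold mass
  rw [ty_stt σ (by norm_num), blk_stt σ (by norm_num)]
  norm_num

lemma mass_n1 (σ : Bool) (j : ℤ) : C.mass σ (-1) (stt σ 1 j) = C.nm j := by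
  unfold mass
  rw [ty_stt σ (by norm_num), blk_stt σ (by norm_num)]
  norm_num

lemma mass_n2 (σ : Bool) (j : ℤ) : C.mass σ (-1) (stt σ 2 j) = 2 * C.P.w j := by
  unfold mass
  rw [ty_stt σ (by norm_num), blk_stt σ (by norm_num)]
  norm_num

end Chn

/-- variation inside a block, two flows -/
lemma bv_le_two {c : Lt → ℤ} (F G : Flow c) (f : ℤ → ℝ) (σ : Bool) (j : ℤ)
    (hP : (∃ v, 1 / 16 ≤ F.W (stt σ (-1) j) v ∧ 1 / 16 ≤ F.W (stt σ 0 j) v) ∨
      (∃ v, 1 / 16 ≤ G.W (stt σ (-1) j) v ∧ 1 / 16 ≤ G.W (stt σ 0 j) v))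
    (hZ : ∃ v, 1 / 16 ≤ F.W (stt σ 0 j) v ∧ 1 / 16 ≤ F.W (stt σ 1 j) v)
    (hM : (∃ v, 1 / 16 ≤ F.W (stt σ 1 j) v ∧ 1 / 16 ≤ F.W (stt σ 2 j) v) ∨
      (∃ v, 1 / 16 ≤ G.W (stt σ 1 j) v ∧ 1 / 16 ≤ G.W (stt σ 2 j) v)) :
    bv f j ≤ 32 * (bE F f j + bE G f j) := by
  have e : bv f j = |f (stt σ (-1) j) - f (stt σ 0 j)| + |f (stt σ 0 j) - f (stt σ 1 j)| +
      |f (stt σ 1 j) - f (stt σ 2 j)| := by
    unfold bv stt
    cases σ
    · simp only [Bool.false_eq_true, if_false]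
      rw [show 4 * j + 1 - -1 = 4 * j + 2 by ring, show 4 * j + 1 - 0 = 4 * j + 1 by ring,
        show 4 * j + 1 - 1 = 4 * j by ring, show 4 * j + 1 - 2 = 4 * j - 1 by ring]
      ring
    · simp only [if_true]
      rw [show 4 * j + -1 = 4 * j - 1 by ring, show 4 * j + 0 = 4 * j by ring,
        abs_sub_comm (f (4 * j)) (f (4 * j - 1)), abs_sub_comm (f (4 * j + 1)) (f (4 * j)),
        abs_sub_comm (f (4 * j + 2)) (f (4 * j + 1))]
  have eF : bE F f j = lE F f (stt σ (-1) j) + lE F f (stt σ 0 j) + lE F f (stt σ 1 j) +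
      lE F f (stt σ 2 j) := by
    unfold bE stt
    cases σ
    · simp only [Bool.false_eq_true, if_false]
      rw [show 4 * j + 1 - -1 = 4 * j + 2 by ring, show 4 * j + 1 - 0 = 4 * j + 1 by ring,
        show 4 * j + 1 - 1 = 4 * j by ring, show 4 * j + 1 - 2 = 4 * j - 1 by ring]
      ring
    · simp only [if_true]
      rw [show 4 * j + -1 = 4 * j - 1 by ring, show 4 * j + 0 = 4 * j by ring]
  have eG : bE G f j = lE G f (stt σ (-1) j) + lE G f (stt σ 0 j) + lE G f (stt σ 1 j) +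
      lE G f (stt σ 2 j) := by
    unfold bE stt
    cases σ
    · simp only [Bool.false_eq_true, if_false]
      rw [show 4 * j + 1 - -1 = 4 * j + 2 by ring, show 4 * j + 1 - 0 = 4 * j + 1 by ring,
        show 4 * j + 1 - 1 = 4 * j by ring, show 4 * j + 1 - 2 = 4 * j - 1 by ring]
      ring
    · simp only [if_true]
      rw [show 4 * j + -1 = 4 * j - 1 by ring, show 4 * j + 0 = 4 * j by ring]
  rw [e, eF, eG]
  have b1 := blk_stt σ (τ := -1) (by norm_num) j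
  have b2 := blk_stt σ (τ := 0) (by norm_num) j
  have b3 := blk_stt σ (τ := 1) (by norm_num) j
  have b4 := blk_stt σ (τ := 2) (by norm_num) j
  have p1 := lE_nonneg F f (stt σ (-1) j)
  have p2 := lE_nonneg F f (stt σ 0 j)
  have p3 := lE_nonneg F f (stt σ 1 j)
  have p4 := lE_nonneg F f (stt σ 2 j)
  have q1 := lE_nonneg G f (stt σ (-1) j)
  have q2 := lE_nonneg G f (stt σ 0 j)
  have q3 := lE_nonneg G f (stt σ 1 j)
  have q4 := lE_nonneg G f (stt σ 2 j)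
  have hz : |f (stt σ 0 j) - f (stt σ 1 j)| ≤ 16 * (lE F f (stt σ 0 j) + lE F f (stt σ 1 j)) := by
    obtain ⟨v, h1, h2⟩ := hZ
    exact merge_le f (b2.trans b3.symm) h1 h2
  have hp : |f (stt σ (-1) j) - f (stt σ 0 j)| ≤ 16 * (lE F f (stt σ (-1) j) +
      lE F f (stt σ 0 j)) + 16 * (lE G f (stt σ (-1) j) + lE G f (stt σ 0 j)) := by
    rcases hP with ⟨v, h1, h2⟩ | ⟨v, h1, h2⟩
    · have := merge_le f (b1.trans b2.symm) h1 h2
      linarith
    · have := merge_le f (b1.trans b2.symm) h1 h2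
      linarith
  have hm : |f (stt σ 1 j) - f (stt σ 2 j)| ≤ 16 * (lE F f (stt σ 1 j) +
      lE F f (stt σ 2 j)) + 16 * (lE G f (stt σ 1 j) + lE G f (stt σ 2 j)) := by
    rcases hM with ⟨v, h1, h2⟩ | ⟨v, h1, h2⟩
    · have := merge_le f (b3.trans b4.symm) h1 h2
      linarith
    · have := merge_le f (b3.trans b4.symm) h1 h2
      linarith
  linarith

end Pool.Agent.H98.RP2
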