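import Pool.Agent.H98.RP2.Defs

/-! The exact chain is a stationary flow. -/

set_option autoImplicit false

namespace Pool.Agent.H98.RP2

open Finset H54RP

lemma st_blk (Y a : ℤ) : st (blk Y - a) = st (Y + 1 - 4 * a) := by
  unfold st blk
  split_ifs <;> omega

lemma st_pos {x : ℤ} (h : 0 ≤ x) : st x = 1 := if_pos h
lemma st_neg {x : ℤ} (h : x < 0) : st x = 0 := if_neg (not_le.2 h)

namespace Par

variable (P : Par)

lemma G_sub (V : ℤ) : P.G V - P.G (V - P.N) = P.w V := by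
  unfold G w iv
  rw [show V - P.N - (-2 * P.M + P.g) = V - (-2 * P.M + P.g + P.N) by ring,
    show V - P.N - -P.g = V - (-P.g + P.N) by ring]
  ring

lemma D_stat (th : ℤ → ℤ) (Y : ℤ) :
    P.D0 th Y + P.D1 th (Y - P.N) = 2 * P.w (blk Y) := by
  unfold D0 D1 ZG w iv
  rw [st_blk, st_blk, st_blk, st_blk]
  ring_nf

lemma D_sum {np nm th : ℤ → ℤ} (h : P.Exact np nm th) (V : ℤ) :
    P.D0 th V + P.D1 th V = P.r np nm V := by
  have h1 := h.th V
  have h2 := P.G_sub V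
  have h3 := P.G_sub (V - P.Q)
  have h4 := P.G_sub (V + P.Q)
  unfold D0 D1 R r
  rw [show V - P.N - P.Q = V - P.Q - P.N by ring, show V - P.N + P.Q = V + P.Q - P.N by ring]
  linarith

end Par

lemma bb_cases (v : Lt) : bb v = -1 ∨ bb v = 0 ∨ bb v = 1 := by
  unfold bb
  have := v.1.isLt
  omega

lemma dd_cases (v : Lt) : dd v = 0 ∨ dd v = 1 := by
  unfold dd
  have := v.2.isLt
  omega

lemma sum_Lt (F : ℤ → ℤ → ℝ) :
    ∑ v : Lt, F (bb v) (dd v) = (F (-1) 0 + F (-1) 1) + (F 0 0 + F 0 1) + (F 1 0 + F 1 1) := by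
  rw [Fintype.sum_prod_type, Fin.sum_univ_three]
  simp [Fin.sum_univ_two, bb, dd]

namespace Chn

variable {C : Chn}

lemma ty_block (σ : Bool) (Y : ℤ) (r : ℕ) (hr : r < 4) :
    ty σ (4 * Y - 1 + r) = if σ then (r : ℤ) - 1 else 2 - r := by
  unfold ty
  rw [blk_eq Y r hr]
  cases σ <;> simp <;> ring

/-- total mass of the event `b` in the block `Y` -/
def brk (C : Chn) (b Y : ℤ) : ℤ :=
  if b = 1 then 2 * C.P.w Y + C.np Y
  else if b = 0 then 4 * C.P.w Y - C.np Y - C.nm Y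
  else 2 * C.P.w Y + C.nm Y

lemma mass_block (σ : Bool) (b Y : ℤ) :
    ∑ r ∈ range 4, C.mass σ b (4 * Y - 1 + (r : ℕ)) = C.brk b Y := by
  have hb : ∀ r : ℕ, r < 4 → blk (4 * Y - 1 + (r : ℕ)) = Y := fun r hr => blk_eq Y r hr
  rw [sum_range_succ, sum_range_succ, sum_range_succ, sum_range_one]
  unfold mass brk
  rw [hb 0 (by norm_num), hb 1 (by norm_num), hb 2 (by norm_num), hb 3 (by norm_num),
    ty_block σ Y 0 (by norm_num), ty_block σ Y 1 (by norm_num), ty_block σ Y 2 (by norm_num),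
    ty_block σ Y 3 (by norm_num)]
  cases σ
  · by_cases h1 : b = 1
    · simp [h1]; ring
    · by_cases h0 : b = 0
      · simp [h0]; ring
      · simp [h1, h0]
  · by_cases h1 : b = 1
    · simp [h1]
    · by_cases h0 : b = 0
      · simp [h0]; ring
      · simp [h1, h0]; ring

lemma ty_range (σ : Bool) (X : ℤ) : ty σ X = -1 ∨ ty σ X = 0 ∨ ty σ X = 1 ∨ ty σ X = 2 := by
  unfold ty blk
  cases σ
  · simp only [Bool.false_eq_true, if_false]; omega
  · simp only [if_true]; omega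

lemma mass_sum (σ : Bool) (X : ℤ) :
    C.mass σ (-1) X + C.mass σ 0 X + C.mass σ 1 X = 2 * C.P.w (blk X) := by
  unfold mass
  rcases ty_range σ X with h | h | h | h <;> rw [h] <;> norm_num

lemma mass_nonneg (h : C.Ex) (σ : Bool) (b X : ℤ) : 0 ≤ C.mass σ b X := by
  have h1 := h.np0 (blk X)
  have h2 := h.np2 (blk X)
  have h3 := h.nm0 (blk X)
  have h4 := h.nm2 (blk X)
  unfold mass
  split_ifs <;> omega

lemma mass_le_brk (h : C.Ex) (σ : Bool) (b X : ℤ) : C.mass σ b X ≤ C.brk b (blk X) := by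
  obtain ⟨r, hr, hX⟩ := exists_res X
  rw [← mass_block (C := C) σ b (blk X)]
  calc C.mass σ b X = C.mass σ b (4 * blk X - 1 + (r : ℕ)) := by rw [← hX]
    _ ≤ _ := single_le_sum (f := fun r : ℕ => C.mass σ b (4 * blk X - 1 + (r : ℕ)))
        (fun r _ => mass_nonneg h σ b _) (mem_range.2 hr)

lemma brk_nonneg (h : C.Ex) (b Y : ℤ) : 0 ≤ C.brk b Y := by
  have h1 := h.np0 Y
  have h2 := h.np2 Y
  have h3 := h.nm0 Y
  have h4 := h.nm2 Y
  unfold brk
  split_ifs <;> omega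

lemma r_eq (V : ℤ) : C.P.r C.np C.nm V = C.brk (-1) (V + C.P.Q) + C.brk 0 V + C.brk 1 (V - C.P.Q) := by
  unfold Par.r brk
  norm_num
  ring

lemma brk_le_r (h : C.Ex) {b : ℤ} (hb : b = -1 ∨ b = 0 ∨ b = 1) (Y : ℤ) :
    C.brk b Y ≤ C.P.r C.np C.nm (Y + C.P.Q * b) := by
  rw [r_eq]
  have h1 := brk_nonneg h (-1) (Y + C.P.Q * b + C.P.Q)
  have h2 := brk_nonneg h 0 (Y + C.P.Q * b)
  have h3 := brk_nonneg h 1 (Y + C.P.Q * b - C.P.Q)
  rcases hb with rfl | rfl | rfl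
  · rw [show Y + C.P.Q * -1 + C.P.Q = Y by ring] at *
    linarith
  · rw [show Y + C.P.Q * 0 = Y by ring] at *
    linarith
  · rw [show Y + C.P.Q * 1 - C.P.Q = Y by ring] at *
    linarith

lemma Dd_nonneg (h : C.Ex) (d V : ℤ) : 0 ≤ C.Dd d V := by
  unfold Dd
  split_ifs
  · exact h.d1 V
  · exact h.d0 V

lemma W_nonneg (h : C.Ex) (σ : Bool) (X : ℤ) (v : Lt) : 0 ≤ C.W σ X v := by
  have h1 : (0 : ℝ) ≤ C.mass σ (bb v) X := by exact_mod_cast mass_nonneg h σ _ X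
  have h2 : (0 : ℝ) ≤ C.Dd (dd v) (blk X + C.P.Q * bb v) := by exact_mod_cast Dd_nonneg h _ _
  have h3 : (0 : ℝ) ≤ C.P.r C.np C.nm (blk X + C.P.Q * bb v) := by
    exact_mod_cast (brk_nonneg h _ _).trans (brk_le_r h (bb_cases v) _)
  unfold W
  positivity

lemma Dd_sum (h : C.Ex) (V : ℤ) : C.Dd 0 V + C.Dd 1 V = C.P.r C.np C.nm V := by
  have := C.P.D_sum h V
  simpa [Dd] using this

lemma Dd_stat (Y : ℤ) : C.Dd 0 Y + C.Dd 1 (Y - C.P.N) = 2 * C.P.w (blk Y) := by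
  have := C.P.D_stat C.th Y
  simpa [Dd] using this

lemma aux_split {m r d0 d1 : ℝ} (h : d0 + d1 = r) (hm : m ≠ 0 → r ≠ 0) :
    m * d0 / (2 * r) + m * d1 / (2 * r) = m / 2 := by
  by_cases hm0 : m = 0
  · simp [hm0]
  · have hr := hm hm0
    rw [← add_div, ← mul_add, h]
    field_simp

/-- the mass of a state -/
lemma W_sum (h : C.Ex) (σ : Bool) (X : ℤ) : ∑ v, C.W σ X v = C.P.w (blk X) := by
  have e0 := sum_Lt (fun b d : ℤ => (C.mass σ b X : ℝ) *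
      (C.Dd d (blk X + C.P.Q * b) : ℝ) / (2 * (C.P.r C.np C.nm (blk X + C.P.Q * b) : ℝ)))
  have e : ∑ v, C.W σ X v = ∑ v : Lt, (C.mass σ (bb v) X : ℝ) *
      (C.Dd (dd v) (blk X + C.P.Q * bb v) : ℝ) /
      (2 * (C.P.r C.np C.nm (blk X + C.P.Q * bb v) : ℝ)) := rfl
  rw [e, e0]
  have hs : ∀ b : ℤ, (b = -1 ∨ b = 0 ∨ b = 1) → (C.mass σ b X : ℝ) *
      (C.Dd 0 (blk X + C.P.Q * b) : ℝ) / (2 * (C.P.r C.np C.nm (blk X + C.P.Q * b) : ℝ)) +
      (C.mass σ b X : ℝ) * (C.Dd 1 (blk X + C.P.Q * b) : ℝ) /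
      (2 * (C.P.r C.np C.nm (blk X + C.P.Q * b) : ℝ)) = (C.mass σ b X : ℝ) / 2 := by
    intro b hb
    apply aux_split
    · exact_mod_cast Dd_sum h _
    · intro hm hr
      apply hm
      have h1 := mass_nonneg h σ b X
      have h2 := mass_le_brk h σ b X
      have h3 := brk_le_r h hb (blk X)
      have h4 : C.P.r C.np C.nm (blk X + C.P.Q * b) = 0 := by exact_mod_cast hr
      have : C.mass σ b X = 0 := by omega
      exact_mod_cast this
  rw [hs (-1) (by simp), hs 0 (by simp), hs 1 (by simp)]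
  have := mass_sum (C := C) σ X
  have h5 : (C.mass σ (-1) X : ℝ) + C.mass σ 0 X + C.mass σ 1 X = 2 * C.P.w (blk X) := by
    exact_mod_cast this
  linarith

lemma W_stat (h : C.Ex) (σ : Bool) (Y : ℤ) :
    ∑ v, C.W σ Y v = ∑ v, ∑ r ∈ range 4, C.W σ (4 * (Y - cL C.P.Q C.P.N v) - 1 + (r : ℕ)) v := by
  rw [W_sum h]
  have e0 := sum_Lt (fun b d : ℤ => (C.brk b (Y - C.P.N * d - C.P.Q * b) : ℝ) *
    (C.Dd d (Y - C.P.N * d) : ℝ) / (2 * (C.P.r C.np C.nm (Y - C.P.N * d) : ℝ)))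
  have e : ∀ v : Lt, ∑ r ∈ range 4, C.W σ (4 * (Y - cL C.P.Q C.P.N v) - 1 + (r : ℕ)) v =
      (C.brk (bb v) (Y - C.P.N * (dd v) - C.P.Q * (bb v)) : ℝ) *
        (C.Dd (dd v) (Y - C.P.N * (dd v)) : ℝ) /
        (2 * (C.P.r C.np C.nm (Y - C.P.N * (dd v)) : ℝ)) := by
    intro v
    have h1 : ∀ r ∈ range 4, C.W σ (4 * (Y - cL C.P.Q C.P.N v) - 1 + (r : ℕ)) v =
        (C.mass σ (bb v) (4 * (Y - cL C.P.Q C.P.N v) - 1 + (r : ℕ)) : ℝ) *
        ((C.Dd (dd v) (Y - C.P.N * dd v) : ℝ) /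
        (2 * (C.P.r C.np C.nm (Y - C.P.N * dd v) : ℝ))) := by
      intro r hr
      unfold W
      rw [blk_eq _ r (mem_range.1 hr)]
      have : Y - cL C.P.Q C.P.N v + C.P.Q * bb v = Y - C.P.N * dd v := by unfold cL; ring
      rw [this]
      ring
    rw [sum_congr rfl h1, ← sum_mul]
    have h2 : (∑ r ∈ range 4, (C.mass σ (bb v) (4 * (Y - cL C.P.Q C.P.N v) - 1 + (r : ℕ)) : ℝ)) =
        (C.brk (bb v) (Y - C.P.N * dd v - C.P.Q * bb v) : ℝ) := by
      have := mass_block (C := C) σ (bb v) (Y - cL C.P.Q C.P.N v)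
      have h3 : Y - cL C.P.Q C.P.N v = Y - C.P.N * dd v - C.P.Q * bb v := by unfold cL; ring
      rw [h3] at this ⊢
      exact_mod_cast this
    rw [h2]
    ring
  rw [sum_congr rfl fun v _ => e v, e0]
  have hs : ∀ d : ℤ, ((C.brk (-1) (Y - C.P.N * d - C.P.Q * -1) : ℝ) * (C.Dd d (Y - C.P.N * d) : ℝ) /
        (2 * (C.P.r C.np C.nm (Y - C.P.N * d) : ℝ))) +
      ((C.brk 0 (Y - C.P.N * d - C.P.Q * 0) : ℝ) * (C.Dd d (Y - C.P.N * d) : ℝ) /
        (2 * (C.P.r C.np C.nm (Y - C.P.N * d) : ℝ))) +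
      ((C.brk 1 (Y - C.P.N * d - C.P.Q * 1) : ℝ) * (C.Dd d (Y - C.P.N * d) : ℝ) /
        (2 * (C.P.r C.np C.nm (Y - C.P.N * d) : ℝ))) = (C.Dd d (Y - C.P.N * d) : ℝ) / 2 := by
    intro d
    have h1 := r_eq (C := C) (Y - C.P.N * d)
    rw [show Y - C.P.N * d - C.P.Q * -1 = Y - C.P.N * d + C.P.Q by ring,
      show Y - C.P.N * d - C.P.Q * 0 = Y - C.P.N * d by ring,
      show Y - C.P.N * d - C.P.Q * 1 = Y - C.P.N * d - C.P.Q by ring]
    rw [← add_div, ← add_div, ← add_mul, ← add_mul]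
    have h2 : (C.brk (-1) (Y - C.P.N * d + C.P.Q) : ℝ) + C.brk 0 (Y - C.P.N * d) +
        C.brk 1 (Y - C.P.N * d - C.P.Q) = C.P.r C.np C.nm (Y - C.P.N * d) := by
      exact_mod_cast h1.symm
    rw [h2]
    by_cases hr : (C.P.r C.np C.nm (Y - C.P.N * d) : ℝ) = 0
    · have h3 := Dd_sum h (Y - C.P.N * d)
      have h4 := Dd_nonneg h 0 (Y - C.P.N * d)
      have h5 := Dd_nonneg h 1 (Y - C.P.N * d)
      have h6 : C.P.r C.np C.nm (Y - C.P.N * d) = 0 := by exact_mod_cast hr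
      have h7 : C.Dd d (Y - C.P.N * d) = 0 := by
        by_cases hd : d = 1
        · subst hd; omega
        · have h8 : C.Dd d (Y - C.P.N * d) = C.Dd 0 (Y - C.P.N * d) := by
            unfold Dd
            rw [if_neg hd, if_neg (by norm_num)]
          omega
      rw [h7]
      simp
    · field_simp
  have h0 := hs 0
  have h1 := hs 1
  have h2 := Dd_stat (C := C) Y
  have h3 : (C.Dd 0 (Y - C.P.N * 0) : ℝ) + C.Dd 1 (Y - C.P.N * 1) = 2 * C.P.w (blk Y) := by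
    rw [mul_zero, mul_one, sub_zero]
    exact_mod_cast h2
  linarith

/-- ordering of the thresholds of the weight function -/
structure Wok (P : Par) : Prop where
  g0 : 0 ≤ P.g
  gM : 2 * P.g ≤ P.M
  hN : P.N = 3 * P.M + 1

lemma w_zero {P : Par} (h : Wok P) {j : ℤ} (hj : j < -2 * P.M + P.g ∨ P.N - P.g ≤ j) :
    P.w j = 0 := by
  obtain ⟨N, M, D, g⟩ := P
  obtain ⟨g0, gM, hN⟩ := h
  simp only at *
  unfold Par.w iv st
  simp only
  split_ifs <;> omega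

lemma w_pos {P : Par} (h : Wok P) {j : ℤ} (hj : -2 * P.M + P.g ≤ j ∧ j < P.N - P.g) :
    1 ≤ P.w j := by
  obtain ⟨N, M, D, g⟩ := P
  obtain ⟨g0, gM, hN⟩ := h
  simp only at *
  unfold Par.w iv st
  simp only
  split_ifs <;> omega

lemma w_le {P : Par} (_ : Wok P) (j : ℤ) : P.w j ≤ 2 := by
  unfold Par.w iv st
  split_ifs <;> omega

lemma w_mid {P : Par} (h : Wok P) {j : ℤ} (hj : -P.g ≤ j ∧ j ≤ P.M + P.g) :
    P.w j = 2 := by
  obtain ⟨N, M, D, g⟩ := P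
  obtain ⟨g0, gM, hN⟩ := h
  simp only at *
  unfold Par.w iv st
  simp only
  split_ifs <;> omega

/-- support of the flow -/
noncomputable def sup (P : Par) : Finset ℤ := Icc (4 * (-2 * P.M + P.g) - 1) (4 * (P.N - P.g) - 2)

lemma mem_sup {P : Par} {X : ℤ} :
    X ∈ sup P ↔ -2 * P.M + P.g ≤ blk X ∧ blk X < P.N - P.g := by
  unfold sup blk
  rw [mem_Icc]
  omega

/-- the flow of an exact chain -/
noncomputable def flow (C : Chn) (h : C.Ex) (hw : Wok C.P) (σ : Bool) :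
    H54RP.Flow (cL C.P.Q C.P.N) where
  W := C.W σ
  nonneg := W_nonneg h σ
  supp := sup C.P
  off := by
    intro X hX v
    have h1 : C.P.w (blk X) = 0 := w_zero hw (by rw [mem_sup] at hX; omega)
    have h2 := W_sum h σ X
    rw [h1] at h2
    simp only [Int.cast_zero] at h2
    exact (sum_eq_zero_iff_of_nonneg (fun v _ => W_nonneg h σ X v)).1 h2 v (mem_univ v)
  stat := W_stat h σ

lemma flow_w (C : Chn) (h : C.Ex) (hw : Wok C.P) (σ : Bool) (X : ℤ) :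
    (flow C h hw σ).w X = C.P.w (blk X) := W_sum h σ X

/-- lower bound for the weight of an arc -/
lemma W_ge (h : C.Ex) (hw : Wok C.P) (σ : Bool) (X : ℤ) (v : Lt)
    (hm : 1 ≤ C.mass σ (bb v) X) (hd : 1 ≤ C.Dd (dd v) (blk X + C.P.Q * bb v)) :
    1 / 16 ≤ C.W σ X v := by
  have h1 : (1 : ℝ) ≤ C.mass σ (bb v) X := by exact_mod_cast hm
  have h2 : (1 : ℝ) ≤ C.Dd (dd v) (blk X + C.P.Q * bb v) := by exact_mod_cast hd
  have h3 : C.mass σ (bb v) X ≤ C.P.r C.np C.nm (blk X + C.P.Q * bb v) :=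
    (mass_le_brk h σ _ X).trans (brk_le_r h (bb_cases v) _)
  have h4 : C.P.r C.np C.nm (blk X + C.P.Q * bb v) ≤ 8 := by
    have a6 := Dd_stat (C := C) (blk X + C.P.Q * bb v)
    have a7 := Dd_stat (C := C) (blk X + C.P.Q * bb v + C.P.N)
    have a8 := Dd_sum h (blk X + C.P.Q * bb v)
    have a9 := Dd_nonneg h 1 (blk X + C.P.Q * bb v - C.P.N)
    have a10 := Dd_nonneg h 0 (blk X + C.P.Q * bb v + C.P.N)
    have a11 := w_le hw (blk (blk X + C.P.Q * bb v))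
    have a12 := w_le hw (blk (blk X + C.P.Q * bb v + C.P.N))
    rw [add_sub_cancel_right] at a7
    omega
  have h5 : (C.P.r C.np C.nm (blk X + C.P.Q * bb v) : ℝ) ≤ 8 := by exact_mod_cast h4
  have h6 : (1 : ℝ) ≤ C.P.r C.np C.nm (blk X + C.P.Q * bb v) := by
    exact_mod_cast hm.trans h3
  unfold W
  rw [div_le_div_iff₀ (by norm_num) (by linarith)]
  nlinarith

end Chn

end Pool.Agent.H98.RP2
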