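import Pool.Agent.H98.RP2.Fam
import Pool.Agent.H6.RP2.Exit

/-! Arcs of positive weight are moves of the window graph; the exit. -/

set_option autoImplicit false

namespace Pool.Agent.H98.RP2

open H54RP Pool.Agent.H98.LvdP Pool.Agent.H6.LvdP2 Pool.Agent.H6.RP2

lemma mass_legal {C : Chn} {σ : Bool} {b X : ℤ} (hb : b = -1 ∨ b = 0 ∨ b = 1)
    (h : C.mass σ b X ≠ 0) :
    (b = 1 ∧ (ty σ X = -1 ∨ ty σ X = 0)) ∨ (b = 0 ∧ (ty σ X = 0 ∨ ty σ X = 1)) ∨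
      (b = -1 ∧ (ty σ X = 1 ∨ ty σ X = 2)) := by
  unfold Chn.mass at h
  rcases hb with rfl | rfl | rfl
  · right; right
    refine ⟨rfl, ?_⟩
    by_contra hn
    apply h
    rw [if_neg (by norm_num), if_neg (by norm_num), if_neg (by omega), if_neg (by omega)]
  · right; left
    refine ⟨rfl, ?_⟩
    by_contra hn
    apply h
    rw [if_neg (by norm_num), if_pos rfl, if_neg (by omega), if_neg (by omega)]
  · left
    refine ⟨rfl, ?_⟩
    by_contra hn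
    apply h
    rw [if_pos rfl, if_neg (by omega), if_neg (by omega)]

lemma W_legal {C : Chn} {σ : Bool} {X : ℤ} {v : Lt} (h : C.W σ X v ≠ 0) :
    (bb v = 1 ∧ (ty σ X = -1 ∨ ty σ X = 0)) ∨ (bb v = 0 ∧ (ty σ X = 0 ∨ ty σ X = 1)) ∨
      (bb v = -1 ∧ (ty σ X = 1 ∨ ty σ X = 2)) := by
  refine mass_legal (C := C) (bb_cases v) ?_
  intro h0
  apply h
  unfold Chn.W
  rw [h0]
  simp

/-- the arc `X → blk X + Q b + N d` is a move of the window graph of `k = 4 q + 1` -/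
lemma move_of_ty {k q Q N : ℤ} {t : ℕ} {σ : Bool} {X : ℤ} {v : Lt} (hk : k = 4 * q + 1)
    (hσ : (σ = true ∧ Q = q) ∨ (σ = false ∧ Q = -q)) (hN : 4 ^ t = 4 * N)
    (h : (bb v = 1 ∧ (ty σ X = -1 ∨ ty σ X = 0)) ∨ (bb v = 0 ∧ (ty σ X = 0 ∨ ty σ X = 1)) ∨
      (bb v = -1 ∧ (ty σ X = 1 ∨ ty σ X = 2))) :
    Move k t X (T (cL Q N) v X) := by
  have hd := dd_cases v
  have hX : X = 4 * blk X + (X - 4 * blk X) := by ring
  unfold T cL
  obtain ⟨j, hj⟩ : ∃ j, j = blk X := ⟨_, rfl⟩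
  rcases hσ with ⟨rfl, rfl⟩ | ⟨rfl, rfl⟩
  · have hty : ty true X = X - 4 * j := by unfold ty; rw [hj]; simp
    rw [hty] at h
    refine ⟨bb v, dd v, bb v + (X - 4 * j), bb_cases v, hd, ?_, ?_⟩
    · rcases h with ⟨h1, h2⟩ | ⟨h1, h2⟩ | ⟨h1, h2⟩ <;> rw [h1] <;> omega
    · rw [← hj, hk, hN]
      ring
  · have hty : ty false X = 1 - (X - 4 * j) := by unfold ty; rw [hj]; simp
    rw [hty] at h
    refine ⟨-bb v, dd v, -bb v + (X - 4 * j), ?_, hd, ?_, ?_⟩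
    · rcases bb_cases v with h1 | h1 | h1 <;> rw [h1] <;> norm_num
    · rcases h with ⟨h1, h2⟩ | ⟨h1, h2⟩ | ⟨h1, h2⟩ <;> rw [h1] <;> omega
    · rw [← hj, hk, hN]
      ring

lemma FA_move {k q N M D g : ℤ} {t : ℕ} {σ : Bool} {X : ℤ} {v : Lt} (hk : k = 4 * q + 1)
    (hσ : (σ = true ∧ 2 * N + D = q) ∨ (σ = false ∧ 2 * N + D = -q)) (hN : 4 ^ t = 4 * N)
    (h : (FA N M D σ g).W X v ≠ 0) : Move k t X (T (cL (2 * N + D) N) v X) := by
  by_cases hA : HA ⟨N, M, D, g⟩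
  · rw [FA_W hA] at h
    exact move_of_ty hk hσ hN (W_legal h)
  · exact absurd (if_neg hA) h

lemma FB_move {k q N M D g : ℤ} {t : ℕ} {σ : Bool} {X : ℤ} {v : Lt} (hk : k = 4 * q + 1)
    (hσ : (σ = true ∧ 2 * N + D = q) ∨ (σ = false ∧ 2 * N + D = -q)) (hN : 4 ^ t = 4 * N)
    (h : (FB N M D σ g).W X v ≠ 0) : Move k t X (T (cL (2 * N + D) N) v X) := by
  by_cases hB : HB ⟨N, M, D, g⟩
  · rw [FB_W hB] at h
    exact move_of_ty hk hσ hN (W_legal h)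
  · exact absurd (if_neg hB) h

/-- states reached in at most `n` moves -/
def Un (k : ℤ) (t n : ℕ) : Set ℤ := {X | ∃ n' ≤ n, Reach k t n' X}

lemma Un_mono (k : ℤ) (t : ℕ) : Monotone (Un k t) := by
  intro a b hab X hX
  obtain ⟨n', h1, h2⟩ := hX
  exact ⟨n', h1.trans hab, h2⟩

lemma Un_step {k : ℤ} {t n : ℕ} {X Y : ℤ} (hX : X ∈ Un k t n) (h : Move k t X Y) :
    Y ∈ Un k t (n + 1) := by
  obtain ⟨n', h1, h2⟩ := hX
  exact ⟨n' + 1, by omega, X, h2, h⟩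

lemma DigB_le {n : ℕ} {x : ℤ} (h : DigB n x) : 0 ≤ x ∧ 3 * x + 1 ≤ 4 ^ n := by
  induction n generalizing x with
  | zero => simp only [DigB] at h; subst h; norm_num
  | succ n ih =>
    obtain ⟨ε, m, hε, hm, rfl⟩ := h
    have := ih hm
    rw [pow_succ]
    constructor <;> omega

/-- from the reachability of all states of the support to a multiplier -/
theorem finish {k : ℤ} {t n1 : ℕ} {N M g0 : ℤ} (hk : Odd k) (hN : 4 ^ t = 4 * N)
    (hN3 : N = 3 * M + 1) (hg0 : 0 ≤ g0) (hg : 19 * g0 ≤ 2 * N) (hM : 1000 ≤ M)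
    (hk1 : 7 * N ≤ |k|) (hk2 : 2 * |k| ≤ 17 * N)
    (h : (∃ X, X ∈ Un k t n1 ∧ DigB t X) ∨
      (∀ X, (-2 * M + g0 ≤ blk X ∧ blk X < N - g0) → ¬ DigB t X → X ∈ Un k t n1)) :
    ∃ m, IsMultiplier k m ∧ m ≤ 4 ^ (n1 + 2 * t + 3) := by
  have fin : ∀ n, n ≤ n1 + 2 * t + 2 → Reach k t n 0 →
      ∃ m, IsMultiplier k m ∧ m ≤ 4 ^ (n1 + 2 * t + 3) := by
    intro n hn hR
    obtain ⟨m, hm, hm2⟩ := hR.multiplier
    refine ⟨m, hm, ?_⟩
    have h1 : (4 : ℤ) ^ (n + 1) ≤ 4 ^ (n1 + 2 * t + 3) :=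
      pow_le_pow_right₀ (by norm_num) (by omega)
    have h2 := hm.1
    omega
  rcases h with ⟨X, ⟨n', hn', hR⟩, hD⟩ | h
  · have h1 := (steps_Dt k t hD).reach hR
    exact fin _ (by omega) h1
  · obtain ⟨u, hu1, hu2, n, hn, hS⟩ := exit hk (t := t) (U := g0 + 1) (by omega) (by omega)
    have hX1 : -2 * M + g0 ≤ blk (4 ^ t - u) ∧ blk (4 ^ t - u) < N - g0 := by
      unfold blk
      rcases hu2 with hu2 | hu2
      · rw [hN]; omega
      · rw [hN] at hu2 ⊢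
        rcases abs_cases (|k| - 2 * (4 * N)) with ⟨e, _⟩ | ⟨e, _⟩ <;> rw [e] at hu2 <;> omega
    have hX2 : ¬ DigB t (4 ^ t - u) := by
      intro hD
      obtain ⟨_, h2⟩ := DigB_le hD
      rcases hu2 with hu2 | hu2
      · rw [hN] at h2
        omega
      · rw [hN] at hu2 h2
        rcases abs_cases (|k| - 2 * (4 * N)) with ⟨e, _⟩ | ⟨e, _⟩ <;> rw [e] at hu2 <;> omega
    obtain ⟨n', hn', hR⟩ := h _ hX1 hX2
    exact fin _ (by omega) (hS.reach hR)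

end Pool.Agent.H98.RP2
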